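import Mathlib

/-!
# The functions `Im (1 + w (1 - x)) ^ (s₀ + i N)` on `(0, 1)`

For `N = 3`, `w = exp(2πi/3)` and `N = 4`, `w = i`: every nonzero combination of the first `n + 1`
of them has at most `n` zeros in `(0, 1)`, counted with multiplicity (Rolle's theorem for `N`
derivatives, with `N - 1` zeros at the end points).
-/

open Polynomial

namespace Run7.h887.BP

noncomputable section

/-- the polynomial with the imaginary parts of the coefficients -/
def imP (P : ℂ[X]) : ℝ[X] := ∑ i ∈ Finset.range (P.natDegree + 1), C (P.coeff i).im * X ^ i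

theorem imP_coeff (P : ℂ[X]) (n : ℕ) : (imP P).coeff n = (P.coeff n).im := by
  simp only [imP, finsetSum_coeff, coeff_C_mul_X_pow]
  rw [Finset.sum_ite_eq (Finset.range (P.natDegree + 1)) n]
  split_ifs with h
  · rfl
  · rw [Finset.mem_range, not_lt] at h
    rw [coeff_eq_zero_of_natDegree_lt (by omega)]
    simp

theorem imP_eval (P : ℂ[X]) (x : ℝ) : (imP P).eval x = (P.eval (x : ℂ)).im := by
  rw [eval_eq_sum_range (p := P), imP, eval_finsetSum, Complex.im_sum]
  refine Finset.sum_congr rfl fun i _ => ?_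
  rw [eval_mul, eval_C, eval_pow, eval_X, ← Complex.ofReal_pow, Complex.im_mul_ofReal]

theorem imP_derivative (P : ℂ[X]) : derivative (imP P) = imP (derivative P) := by
  ext n
  rw [coeff_derivative, imP_coeff, imP_coeff, coeff_derivative]
  have : ((n : ℂ) + 1) = (((n : ℝ) + 1 : ℝ) : ℂ) := by push_cast; ring
  rw [this, Complex.im_mul_ofReal]

theorem imP_iter (P : ℂ[X]) (r : ℕ) : derivative^[r] (imP P) = imP (derivative^[r] P) := by
  induction r with
  | zero => rfl
  | succ r ih => rw [Function.iterate_succ_apply', Function.iterate_succ_apply', ih, imP_derivative]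

/-! ### Counting zeros in `(0, 1)` -/

open Classical in
/-- number of zeros in `(0, 1)` with multiplicity -/
def Z (f : ℝ[X]) : ℕ := (f.roots.filter (fun x => x ∈ Set.Ioo (0 : ℝ) 1)).card

theorem Z_mul {f g : ℝ[X]} (h : f * g ≠ 0) : Z (f * g) = Z f + Z g := by
  classical
  unfold Z
  rw [roots_mul h, Multiset.filter_add, Multiset.card_add]

theorem Z_X_sub {y : ℝ} (hy : y ∈ Set.Ioo (0 : ℝ) 1) : Z (X - C y) = 1 := by
  classical
  unfold Z
  rw [roots_X_sub_C, Multiset.filter_singleton, if_pos hy]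
  rfl

theorem Z_pos {f : ℝ[X]} (hf : f ≠ 0) {x : ℝ} (hx : x ∈ Set.Ioo (0 : ℝ) 1) (h : f.eval x = 0) :
    0 < Z f := by
  classical
  unfold Z
  rw [Multiset.card_pos_iff_exists_mem]
  exact ⟨x, Multiset.mem_filter.2 ⟨(mem_roots hf).2 h, hx⟩⟩

open Classical in
theorem Z_eq_sum (f : ℝ[X]) (s : Finset ℝ) (hs : ∀ x, x ∈ s → x ∈ Set.Ioo (0 : ℝ) 1)
    (hr : ∀ x ∈ f.roots, x ∈ Set.Ioo (0 : ℝ) 1 → x ∈ s) : Z f = ∑ x ∈ s, f.roots.count x := by
  classical
  unfold Z
  rw [← Multiset.toFinset_sum_count_eq]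
  have h1 : (f.roots.filter (fun x => x ∈ Set.Ioo (0 : ℝ) 1)).toFinset ⊆ s := by
    intro x hx
    rw [Multiset.mem_toFinset, Multiset.mem_filter] at hx
    exact hr x hx.1 hx.2
  rw [Finset.sum_subset h1 (f := fun a => Multiset.count a (f.roots.filter
    (fun x => x ∈ Set.Ioo (0 : ℝ) 1)))]
  · refine Finset.sum_congr rfl fun x hx => ?_
    exact Multiset.count_filter_of_pos (hs x hx)
  · intro x hx hx2
    rw [Multiset.mem_toFinset] at hx2
    exact Multiset.count_eq_zero.2 hx2

theorem rolle (f : ℝ[X]) (hf : derivative f ≠ 0) :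
    Z f + (if f.eval 0 = 0 then 1 else 0) + (if f.eval 1 = 0 then 1 else 0) ≤
      Z (derivative f) + 1 := by
  classical
  have hf0 : f ≠ 0 := ne_of_apply_ne derivative (by rwa [derivative_zero])
  set s : Finset ℝ := f.roots.toFinset.filter (fun x => x ∈ Set.Ioo (0 : ℝ) 1) with hs
  set t : Finset ℝ := (derivative f).roots.toFinset.filter (fun x => x ∈ Set.Ioo (0 : ℝ) 1) with ht
  set u : Finset ℝ := f.roots.toFinset.filter (fun x => x ∈ Set.Icc (0 : ℝ) 1) with hu
  have hus : u.card = s.card + (if f.eval 0 = 0 then 1 else 0) +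
      (if f.eval 1 = 0 then 1 else 0) := by
    have h1 : u = (s ∪ (if f.eval 0 = 0 then {0} else ∅)) ∪ (if f.eval 1 = 0 then {1} else ∅) := by
      ext x
      simp only [hu, hs, Finset.mem_union, Finset.mem_filter, Multiset.mem_toFinset, mem_roots hf0,
        IsRoot, Set.mem_Icc, Set.mem_Ioo]
      constructor
      · rintro ⟨h, h0, h1⟩
        rcases h0.lt_or_eq with h0' | rfl
        · rcases h1.lt_or_eq with h1' | rfl
          · exact Or.inl (Or.inl ⟨h, h0', h1'⟩)
          · right
            rw [if_pos h]; simp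
        · left; right
          rw [if_pos h]; simp
      · rintro ((⟨h, h0, h1⟩ | h) | h)
        · exact ⟨h, h0.le, h1.le⟩
        · split_ifs at h with h2
          · rw [Finset.mem_singleton] at h
            subst h
            exact ⟨h2, le_refl _, zero_le_one⟩
          · simp at h
        · split_ifs at h with h2
          · rw [Finset.mem_singleton] at h
            subst h
            exact ⟨h2, zero_le_one, le_refl _⟩
          · simp at h
    rw [h1, Finset.card_union_of_disjoint, Finset.card_union_of_disjoint]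
    · congr 1
      · congr 1
        split_ifs <;> simp
      · split_ifs <;> simp
    · split_ifs
      · rw [Finset.disjoint_singleton_right]
        simp [hs]
      · simp
    · rw [Finset.disjoint_right]
      intro x hx
      split_ifs at hx with h3
      · rw [Finset.mem_singleton] at hx
        subst hx
        rw [Finset.mem_union, not_or]
        refine ⟨by simp [hs], ?_⟩
        split_ifs <;> simp
      · simp at hx
  have hint : u.card ≤ (t \ u).card + 1 := by
    refine Finset.card_le_sdiff_of_interleaved fun x hx y hy hxy _ => ?_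
    rw [hu, Finset.mem_filter, Multiset.mem_toFinset, mem_roots hf0] at hx hy
    obtain ⟨z, hz1, hz2⟩ := exists_deriv_eq_zero hxy f.continuousOn
      ((show f.eval x = 0 from hx.1).trans (show f.eval y = 0 from hy.1).symm)
    refine ⟨z, ?_, hz1⟩
    rw [ht, Finset.mem_filter, Multiset.mem_toFinset, mem_roots hf, IsRoot, ← f.deriv]
    exact ⟨hz2, lt_of_le_of_lt hx.2.1 hz1.1, lt_of_lt_of_le hz1.2 hy.2.2⟩
  have htu : (t \ u).card ≤ (t \ s).card := by
    apply Finset.card_le_card
    apply Finset.sdiff_subset_sdiff (Finset.Subset.refl _)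
    intro x hx
    rw [hs, Finset.mem_filter] at hx
    rw [hu, Finset.mem_filter]
    exact ⟨hx.1, hx.2.1.le, hx.2.2.le⟩
  have hZf : Z f = ∑ x ∈ s, f.roots.count x := Z_eq_sum f s
    (fun x hx => (Finset.mem_filter.1 hx).2)
    (fun x hx hx2 => Finset.mem_filter.2 ⟨Multiset.mem_toFinset.2 hx, hx2⟩)
  have hZf' : Z (derivative f) = ∑ x ∈ s ∪ t, (derivative f).roots.count x :=
    Z_eq_sum (derivative f) (s ∪ t)
    (fun x hx => by
      rcases Finset.mem_union.1 hx with h | h
      · exact (Finset.mem_filter.1 h).2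
      · exact (Finset.mem_filter.1 h).2)
    (fun x hx hx2 => Finset.mem_union.2 (Or.inr
      (Finset.mem_filter.2 ⟨Multiset.mem_toFinset.2 hx, hx2⟩)))
  have h1 : ∑ x ∈ s, f.roots.count x ≤ ∑ x ∈ s, (derivative f).roots.count x + s.card := by
    rw [Finset.card_eq_sum_ones, ← Finset.sum_add_distrib]
    refine Finset.sum_le_sum fun x _ => ?_
    rw [count_roots, count_roots]
    have := rootMultiplicity_sub_one_le_derivative_rootMultiplicity f x
    omega
  have h2 : (t \ s).card ≤ ∑ x ∈ t \ s, (derivative f).roots.count x := by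
    rw [Finset.card_eq_sum_ones]
    refine Finset.sum_le_sum fun x hx => ?_
    rw [Nat.succ_le_iff, Multiset.count_pos]
    exact Multiset.mem_toFinset.1 (Finset.mem_filter.1 (Finset.mem_sdiff.1 hx).1).1
  have h3 : ∑ x ∈ s ∪ t, (derivative f).roots.count x =
      ∑ x ∈ s, (derivative f).roots.count x + ∑ x ∈ t \ s, (derivative f).roots.count x := by
    rw [← Finset.sum_union Finset.disjoint_sdiff, Finset.union_sdiff_self_eq_union]
  rw [hZf, hZf', h3]
  omega

/-! ### The family -/

/-- `ζ(x) = 1 + w (1 - x)` -/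
def ze (w : ℂ) : ℂ[X] := C (1 + w) - C w * X

theorem ze_eval (w : ℂ) (x : ℂ) : (ze w).eval x = 1 + w * (1 - x) := by
  simp only [ze, eval_sub, eval_C, eval_mul, eval_X]
  ring

theorem ze_iter (w : ℂ) (s r : ℕ) : derivative^[r] (ze w ^ s) =
    C ((s.descFactorial r : ℂ) * (-w) ^ r) * ze w ^ (s - r) := by
  induction r with
  | zero => simp
  | succ r ih =>
    rw [Function.iterate_succ_apply', ih, derivative_C_mul, derivative_pow]
    have h1 : derivative (ze w) = C (-w) := by
      simp [ze]
    rw [h1, Nat.descFactorial_succ, Nat.sub_sub, pow_succ]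
    simp only [Nat.cast_mul, map_mul, map_natCast]
    ring

/-- combinations of `ζ ^ (s₀ + i N)`, `i < n` -/
def fam (w : ℂ) (s0 N n : ℕ) (c : ℕ → ℝ) : ℂ[X] :=
  ∑ i ∈ Finset.range n, C ((c i : ℝ) : ℂ) * ze w ^ (s0 + i * N)

theorem ev (w : ℂ) (s0 N n : ℕ) (c : ℕ → ℝ) (r : ℕ) (x : ℝ) :
    (derivative^[r] (imP (fam w s0 N n c))).eval x =
      ∑ i ∈ Finset.range n, c i * (((s0 + i * N).descFactorial r : ℕ) : ℝ) *
        ((-w) ^ r * (1 + w * (1 - x)) ^ (s0 + i * N - r)).im := by
  rw [imP_iter, imP_eval, fam, iterate_derivative_sum, eval_finsetSum, Complex.im_sum]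
  refine Finset.sum_congr rfl fun i _ => ?_
  rw [iterate_derivative_C_mul, ze_iter, eval_mul, eval_mul, eval_C, eval_C, eval_pow, ze_eval,
    ← Complex.ofReal_natCast]
  have : ((c i : ℝ) : ℂ) * ((((s0 + i * N).descFactorial r : ℕ) : ℝ) * (-w) ^ r *
      (1 + w * (1 - (x : ℂ))) ^ (s0 + i * N - r)) =
      ((c i * (((s0 + i * N).descFactorial r : ℕ) : ℝ) : ℝ) : ℂ) * ((-w) ^ r *
        (1 + w * (1 - (x : ℂ))) ^ (s0 + i * N - r)) := by
    push_cast; ring
  rw [this, Complex.im_ofReal_mul]

theorem ev0 (w : ℂ) (s0 N n : ℕ) (c : ℕ → ℝ) (x : ℝ) :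
    (imP (fam w s0 N n c)).eval x =
      ∑ i ∈ Finset.range n, c i * ((1 + w * (1 - x)) ^ (s0 + i * N)).im := by
  have := ev w s0 N n c 0 x
  simpa using this

end

end Run7.h887.BP
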