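import Mathlib
import Pool.Agent.Run7.h887.BP.Alg

/-!
# At most `n` zeros
-/

open Polynomial

namespace Run7.h887.BP

noncomputable section

/-- the root of unity -/
def IsW (N : ℕ) (w : ℂ) : Prop :=
  (N = 3 ∧ w.re = -1 / 2 ∧ w.im = √3 / 2) ∨ (N = 4 ∧ w.re = 0 ∧ w.im = 1)

theorem s3 : √3 * √3 = 3 := Real.mul_self_sqrt (by norm_num)

theorem s3pos : 0 < √3 := Real.sqrt_pos.2 (by norm_num)

theorem w3 {w : ℂ} (h1 : w.re = -1 / 2) (h2 : w.im = √3 / 2) : w ^ 2 = -1 - w := by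
  apply Complex.ext
  · rw [pow_two, Complex.mul_re, Complex.sub_re, Complex.neg_re, Complex.one_re, h1, h2]
    nlinarith [s3]
  · rw [pow_two, Complex.mul_im, Complex.sub_im, Complex.neg_im, Complex.one_im, h1, h2]
    ring

theorem w4 {w : ℂ} (h1 : w.re = 0) (h2 : w.im = 1) : w = Complex.I := by
  apply Complex.ext
  · rw [h1, Complex.I_re]
  · rw [h2, Complex.I_im]

/-- real numbers -/
def Rl (z : ℂ) : Prop := z.im = 0

theorem Rl.mul {a b : ℂ} (ha : Rl a) (hb : Rl b) : Rl (a * b) := by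
  unfold Rl at *
  rw [Complex.mul_im, ha, hb]; ring

theorem Rl.pow {a : ℂ} (ha : Rl a) (n : ℕ) : Rl (a ^ n) := by
  induction n with
  | zero => simp [Rl]
  | succ n ih => rw [pow_succ]; exact ih.mul ha

/-- end point `1` -/
theorem end1 {N : ℕ} {w : ℂ} (h : IsW N w) (r : ℕ) (hr : r = 0 ∨ (N = 4 ∧ r = 2)) :
    Rl ((-w) ^ r) := by
  rcases hr with rfl | ⟨hN, rfl⟩
  · simp [Rl]
  · rcases h with ⟨h3, _, _⟩ | ⟨_, h1, h2⟩
    · omega
    · rw [w4 h1 h2]
      simp [Rl]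

/-- end point `0` -/
theorem end0 {N : ℕ} {w : ℂ} (h : IsW N w) (s r : ℕ) (hr : r ≤ s) (hN : N ∣ s + r) :
    Rl ((-w) ^ r * (1 + w) ^ (s - r)) := by
  obtain ⟨a, rfl⟩ := Nat.exists_eq_add_of_le hr
  rw [Nat.add_sub_cancel_left]
  rcases h with ⟨rfl, h1, h2⟩ | ⟨rfl, h1, h2⟩
  · have hw := w3 h1 h2
    have hw3 : w ^ 3 = 1 := by
      rw [pow_succ, hw, sub_mul, neg_mul, one_mul, ← pow_two, hw]; ring
    have h3 : 1 + w = -(w ^ 2) := by rw [hw]; ring
    have h4 : 3 ∣ r + 2 * a := by omega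
    obtain ⟨b, hb⟩ := h4
    have h5 : (-w) ^ r * (1 + w) ^ a = (-1) ^ r * (-1) ^ a * (w ^ 3) ^ b := by
      rw [h3, neg_pow w, neg_pow (w ^ 2), ← pow_mul, ← pow_mul, ← hb, pow_add]
      ring
    rw [h5, hw3, one_pow, mul_one]
    refine Rl.mul (Rl.pow ?_ _) (Rl.pow ?_ _) <;> simp [Rl]
  · rw [w4 h1 h2]
    have h4 : 2 ∣ a := by omega
    obtain ⟨b, rfl⟩ := h4
    have h5 : 2 ∣ r + b := by omega
    obtain ⟨d, hd⟩ := h5
    have h6 : (1 + Complex.I) ^ 2 = 2 * Complex.I := by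
      rw [add_sq, Complex.I_sq]; ring
    have h7 : (-Complex.I) ^ r * (1 + Complex.I) ^ (2 * b) = (-1) ^ r * 2 ^ b *
        (Complex.I ^ 2) ^ d := by
      rw [pow_mul, h6, neg_pow Complex.I, mul_pow, ← pow_mul, ← hd, pow_add]
      ring
    rw [h7, Complex.I_sq]
    refine Rl.mul (Rl.mul (Rl.pow ?_ _) (Rl.pow ?_ _)) (Rl.pow ?_ _) <;> simp [Rl]

theorem eval1 {N : ℕ} {w : ℂ} (h : IsW N w) (s0 n : ℕ) (c : ℕ → ℝ) (r : ℕ)
    (hr : r = 0 ∨ (N = 4 ∧ r = 2)) :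
    (derivative^[r] (imP (fam w s0 N n c))).eval 1 = 0 := by
  rw [ev]
  refine Finset.sum_eq_zero fun i _ => ?_
  have := end1 h r hr
  simp only [Complex.ofReal_one, sub_self, mul_zero, add_zero, one_pow, mul_one]
  rw [show ((-w) ^ r).im = 0 from this, mul_zero]

theorem eval0 {N : ℕ} {w : ℂ} (h : IsW N w) (s0 n : ℕ) (c : ℕ → ℝ) (r : ℕ) (hr : N ∣ s0 + r) :
    (derivative^[r] (imP (fam w s0 N n c))).eval 0 = 0 := by
  rw [ev]
  refine Finset.sum_eq_zero fun i _ => ?_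
  simp only [Complex.ofReal_zero, sub_zero, mul_one]
  by_cases hle : r ≤ s0 + i * N
  · have h1 : N ∣ s0 + i * N + r := by
      have : s0 + i * N + r = (s0 + r) + N * i := by ring
      rw [this]
      exact dvd_add hr (dvd_mul_right _ _)
    rw [show ((-w) ^ r * (1 + w) ^ (s0 + i * N - r)).im = 0 from end0 h _ r hle h1, mul_zero]
  · rw [Nat.descFactorial_of_lt (by omega)]
    simp

theorem iter_ne {f : ℝ[X]} {r : ℕ} (h : derivative^[r + 1] f ≠ 0) : derivative^[r] f ≠ 0 := by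
  intro h1
  apply h
  rw [Function.iterate_succ_apply', h1, derivative_zero]

theorem step {N : ℕ} {w : ℂ} (h : IsW N w) (s0 n : ℕ) (c : ℕ → ℝ)
    (hD : derivative^[N] (imP (fam w s0 N n c)) ≠ 0) :
    Z (imP (fam w s0 N n c)) ≤ Z (derivative^[N] (imP (fam w s0 N n c))) + 1 := by
  classical
  set f := imP (fam w s0 N n c) with hf
  obtain ⟨z, hz⟩ : ∃ z : ℕ → ℕ, z = fun r => Z (derivative^[r] f) := ⟨_, rfl⟩
  obtain ⟨a, ha⟩ : ∃ a : ℕ → ℕ, a = fun r => if (derivative^[r] f).eval 0 = 0 then 1 else 0 :=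
    ⟨_, rfl⟩
  obtain ⟨b, hb⟩ : ∃ b : ℕ → ℕ, b = fun r => if (derivative^[r] f).eval 1 = 0 then 1 else 0 :=
    ⟨_, rfl⟩
  have E1 : ∀ r, (r = 0 ∨ (N = 4 ∧ r = 2)) → b r = 1 := fun r hr => by
    rw [hb]; exact if_pos (eval1 h s0 n c r hr)
  have E0 : ∀ r, N ∣ s0 + r → a r = 1 := fun r hr => by
    rw [ha]; exact if_pos (eval0 h s0 n c r hr)
  have R : ∀ r, derivative^[r + 1] f ≠ 0 → z r + a r + b r ≤ z (r + 1) + 1 := by
    intro r hr
    rw [hz, ha, hb]
    have := Function.iterate_succ_apply' (f := (derivative : ℝ[X] → ℝ[X])) r f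
    simp only
    rw [this] at hr ⊢
    exact rolle _ hr
  have g0 : Z f = z 0 := by rw [hz]; rfl
  have gN : Z (derivative^[N] f) = z N := by rw [hz]
  rw [g0, gN]
  rcases h with ⟨rfl, -, -⟩ | ⟨rfl, -, -⟩
  · have n2 := iter_ne hD
    have n1 := iter_ne n2
    have r0 := R 0 n1
    have r1 := R 1 n2
    have r2 := R 2 hD
    have e1 := E1 0 (Or.inl rfl)
    have hc : 3 ∣ s0 + 0 ∨ 3 ∣ s0 + 1 ∨ 3 ∣ s0 + 2 := by omega
    simp only [zero_add, Nat.reduceAdd] at r0 r1 r2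
    rcases hc with hc | hc | hc
    · have e0 := E0 0 hc
      omega
    · have e0 := E0 1 hc
      omega
    · have e0 := E0 2 hc
      omega
  · have n3 := iter_ne hD
    have n2 := iter_ne n3
    have n1 := iter_ne n2
    have r0 := R 0 n1
    have r1 := R 1 n2
    have r2 := R 2 n3
    have r3 := R 3 hD
    have e1 := E1 0 (Or.inl rfl)
    have e2 := E1 2 (Or.inr ⟨rfl, rfl⟩)
    have hc : 4 ∣ s0 + 0 ∨ 4 ∣ s0 + 1 ∨ 4 ∣ s0 + 2 ∨ 4 ∣ s0 + 3 := by omega
    simp only [zero_add, Nat.reduceAdd] at r0 r1 r2 r3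
    rcases hc with hc | hc | hc | hc
    · have e0 := E0 0 hc
      omega
    · have e0 := E0 1 hc
      omega
    · have e0 := E0 2 hc
      omega
    · have e0 := E0 3 hc
      omega

/-- the first function is positive -/
theorem base_pos {N : ℕ} {w : ℂ} (h : IsW N w) {s0 : ℕ} (h1 : 1 ≤ s0) (h2 : s0 ≤ N) {x : ℝ}
    (hx : x ∈ Set.Ioo (0 : ℝ) 1) : 0 < ((1 + w * (1 - (x : ℂ))) ^ s0).im := by
  obtain ⟨hx0, hx1⟩ := hx
  set u : ℝ := 1 - x with hu
  have hu0 : 0 < u := by rw [hu]; linarith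
  have hu1 : u < 1 := by rw [hu]; linarith
  have hre : (1 + w * (1 - (x : ℂ))).re = 1 + w.re * u := by
    have : (1 - (x : ℂ)) = ((u : ℝ) : ℂ) := by rw [hu]; push_cast; ring
    rw [this, Complex.add_re, Complex.one_re, Complex.re_mul_ofReal]
  have him : (1 + w * (1 - (x : ℂ))).im = w.im * u := by
    have : (1 - (x : ℂ)) = ((u : ℝ) : ℂ) := by rw [hu]; push_cast; ring
    rw [this, Complex.add_im, Complex.one_im, Complex.im_mul_ofReal, zero_add]
  have P2 : ∀ z : ℂ, (z ^ 2).im = 2 * z.re * z.im := by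
    intro z; rw [pow_two, Complex.mul_im]; ring
  have Q2 : ∀ z : ℂ, (z ^ 2).re = z.re ^ 2 - z.im ^ 2 := by
    intro z; rw [pow_two, Complex.mul_re]; ring
  have P3 : ∀ z : ℂ, (z ^ 3).im = 3 * z.re ^ 2 * z.im - z.im ^ 3 := by
    intro z; rw [pow_succ, Complex.mul_im, P2, Q2]; ring
  have Q3 : ∀ z : ℂ, (z ^ 3).re = z.re ^ 3 - 3 * z.re * z.im ^ 2 := by
    intro z; rw [pow_succ, Complex.mul_re, P2, Q2]; ring
  have P4 : ∀ z : ℂ, (z ^ 4).im = 4 * z.re ^ 3 * z.im - 4 * z.re * z.im ^ 3 := by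
    intro z; rw [pow_succ, Complex.mul_im, P3, Q3]; ring
  rcases h with ⟨rfl, ha, hb⟩ | ⟨rfl, ha, hb⟩
  · have hs := s3pos
    have hss := s3
    interval_cases s0
    · rw [pow_one, him, hb]; positivity
    · rw [P2, hre, him, ha, hb]
      have : 0 < 1 + -1 / 2 * u := by linarith
      positivity
    · rw [P3, hre, him, ha, hb]
      have e : 3 * (1 + -1 / 2 * u) ^ 2 * (√3 / 2 * u) - (√3 / 2 * u) ^ 3 =
          (√3 / 2 * u) * (3 * (1 + -1 / 2 * u) ^ 2 - (√3 * √3) / 4 * u ^ 2) := by ring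
      rw [e, hss]
      have : 0 < 3 * (1 + -1 / 2 * u) ^ 2 - 3 / 4 * u ^ 2 := by nlinarith
      positivity
  · interval_cases s0
    · rw [pow_one, him, hb]; linarith
    · rw [P2, hre, him, ha, hb]; nlinarith
    · rw [P3, hre, him, ha, hb]
      have : 0 < u * (3 - u ^ 2) := mul_pos hu0 (by nlinarith)
      nlinarith
    · rw [P4, hre, him, ha, hb]
      have : 0 < u * (1 - u ^ 2) := mul_pos hu0 (by nlinarith)
      nlinarith

theorem real_pow {N : ℕ} {w : ℂ} (h : IsW N w) : (-w) ^ N = (((-1 : ℝ) ^ N : ℝ) : ℂ) := by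
  rcases h with ⟨rfl, h1, h2⟩ | ⟨rfl, h1, h2⟩
  · have hw := w3 h1 h2
    have hw3 : w ^ 3 = 1 := by
      rw [pow_succ, hw, sub_mul, neg_mul, one_mul, ← pow_two, hw]; ring
    rw [neg_pow, hw3]; push_cast; ring
  · rw [w4 h1 h2, neg_pow]
    have : Complex.I ^ 4 = 1 := Complex.I_pow_four
    rw [this]; push_cast; ring

theorem shift {N : ℕ} {w : ℂ} (h : IsW N w) {s0 : ℕ} (h1 : 1 ≤ s0) (h2 : s0 ≤ N) (n : ℕ)
    (c : ℕ → ℝ) : derivative^[N] (imP (fam w s0 N (n + 1) c)) =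
      imP (fam w s0 N n (fun i => c (i + 1) * ((s0 + (i + 1) * N).descFactorial N : ℕ) *
        (-1) ^ N)) := by
  apply Polynomial.funext
  intro x
  rw [ev, ev0, Finset.sum_range_succ']
  have hz : c 0 * (((s0 + 0 * N).descFactorial N : ℕ) : ℝ) *
      ((-w) ^ N * (1 + w * (1 - (x : ℂ))) ^ (s0 + 0 * N - N)).im = 0 := by
    rw [zero_mul, add_zero]
    rcases h2.lt_or_eq with hlt | heq
    · rw [Nat.descFactorial_of_lt hlt]; simp
    · subst heq
      rw [Nat.sub_self, pow_zero, mul_one, real_pow h, Complex.ofReal_im, mul_zero]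
  rw [hz, add_zero]
  refine Finset.sum_congr rfl fun i _ => ?_
  have e : s0 + (i + 1) * N - N = s0 + i * N := by
    have : s0 + (i + 1) * N = s0 + i * N + N := by ring
    omega
  rw [e, real_pow h, Complex.im_ofReal_mul]
  ring

/-- **Every combination with `c n ≠ 0` of the first `n + 1` functions has at most `n` zeros in
`(0, 1)`.** -/
theorem zero_bound {N : ℕ} {w : ℂ} (h : IsW N w) {s0 : ℕ} (h1 : 1 ≤ s0) (h2 : s0 ≤ N) (n : ℕ) :
    ∀ c : ℕ → ℝ, c n ≠ 0 → imP (fam w s0 N (n + 1) c) ≠ 0 ∧ Z (imP (fam w s0 N (n + 1) c)) ≤ n := by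
  induction n with
  | zero =>
    intro c hc
    have hne : ∀ x ∈ Set.Ioo (0 : ℝ) 1, (imP (fam w s0 N 1 c)).eval x ≠ 0 := by
      intro x hx
      rw [ev0, Finset.sum_range_one, zero_mul, add_zero]
      exact mul_ne_zero hc (base_pos h h1 h2 hx).ne'
    constructor
    · intro h0
      apply hne (1 / 2) ⟨by norm_num, by norm_num⟩
      rw [show (0 : ℕ) + 1 = 1 from rfl] at h0
      rw [h0, eval_zero]
    · classical
      rw [Nat.le_zero]
      unfold Z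
      rw [Multiset.card_eq_zero, Multiset.filter_eq_nil]
      intro x hx hx2
      exact hne x hx2 (isRoot_of_mem_roots hx)
  | succ n ih =>
    intro c hc
    have hs := shift h h1 h2 (n + 1) c
    have hN : (-1 : ℝ) ^ N ≠ 0 := pow_ne_zero _ (by norm_num)
    have hd : (((s0 + (n + 1) * N).descFactorial N : ℕ) : ℝ) ≠ 0 := by
      have : 0 < (s0 + (n + 1) * N).descFactorial N := by
        rw [Nat.pos_iff_ne_zero, Ne, Nat.descFactorial_eq_zero_iff_lt, not_lt]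
        nlinarith
      exact_mod_cast this.ne'
    have := ih (fun i => c (i + 1) * ((s0 + (i + 1) * N).descFactorial N : ℕ) * (-1) ^ N)
      (mul_ne_zero (mul_ne_zero hc hd) hN)
    rw [← hs] at this
    refine ⟨fun h0 => this.1 ?_, (step h s0 _ c this.1).trans (by omega)⟩
    rw [h0, iterate_derivative_zero]

end

end Run7.h887.BP
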