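import Mathlib

/-!
# Integrals over the triangle with vertices `0`, `1`, `w`
-/

open MeasureTheory Polynomial

namespace Run7.h887.BP

noncomputable section

/-- the half-open standard triangle -/
def D2 : Set (ℝ × ℝ) := {p | 0 < p.1 ∧ 0 ≤ p.2 ∧ p.1 + p.2 ≤ 1}

theorem D2_meas : MeasurableSet D2 := by
  unfold D2
  refine (measurableSet_lt measurable_const measurable_fst).inter
    ((measurableSet_le measurable_const measurable_snd).inter
      (measurableSet_le (measurable_fst.add measurable_snd) measurable_const))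

theorem D2_int {F : ℝ × ℝ → ℂ} (hF : Continuous F) : IntegrableOn F D2 := by
  have h1 : IntegrableOn F (Set.Icc (0 : ℝ) 1 ×ˢ Set.Icc (0 : ℝ) 1) :=
    hF.continuousOn.integrableOn_compact (isCompact_Icc.prod isCompact_Icc)
  refine h1.mono_set ?_
  rintro ⟨x, y⟩ ⟨h2, h3, h4⟩
  simp only at h2 h3 h4
  exact ⟨⟨h2.le, by simp only; linarith⟩, ⟨h3, by simp only; linarith⟩⟩

theorem tri1 {F : ℝ × ℝ → ℂ} (hF : Continuous F) :
    ∫ p in D2, F p = ∫ x in (0 : ℝ)..1, ∫ y in (0 : ℝ)..(1 - x), F (x, y) := by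
  have hi : Integrable (D2.indicator F) := (integrable_indicator_iff D2_meas).2 (D2_int hF)
  rw [← integral_indicator D2_meas, Measure.volume_eq_prod,
    integral_prod _ (by rw [← Measure.volume_eq_prod]; exact hi),
    intervalIntegral.integral_of_le zero_le_one, ← integral_indicator measurableSet_Ioc]
  congr 1
  ext x
  by_cases hx : x ∈ Set.Ioc (0 : ℝ) 1
  · rw [Set.indicator_of_mem hx, intervalIntegral.integral_of_le (by linarith [hx.2]),
      ← integral_Icc_eq_integral_Ioc, ← integral_indicator measurableSet_Icc]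
    congr 1
    ext y
    by_cases hy : y ∈ Set.Icc (0 : ℝ) (1 - x)
    · rw [Set.indicator_of_mem hy, Set.indicator_of_mem]
      exact ⟨hx.1, hy.1, by have := hy.2; simp only; linarith⟩
    · rw [Set.indicator_of_notMem hy, Set.indicator_of_notMem]
      rintro ⟨_, h2, h3⟩
      exact hy ⟨h2, by simp only at h3; linarith⟩
  · rw [Set.indicator_of_notMem hx]
    have : (fun y => D2.indicator F (x, y)) = fun _ => 0 := by
      ext y
      rw [Set.indicator_of_notMem]
      rintro ⟨h1, h2, h3⟩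
      simp only at h1 h2 h3
      exact hx ⟨h1, by linarith⟩
    rw [this, integral_zero]

theorem tri2 {F : ℝ × ℝ → ℂ} (hF : Continuous F) :
    ∫ p in D2, F p = ∫ y in (0 : ℝ)..1, ∫ x in (0 : ℝ)..(1 - y), F (x, y) := by
  have hi : Integrable (D2.indicator F) := (integrable_indicator_iff D2_meas).2 (D2_int hF)
  rw [← integral_indicator D2_meas, Measure.volume_eq_prod,
    integral_prod_symm _ (by rw [← Measure.volume_eq_prod]; exact hi),
    intervalIntegral.integral_of_le zero_le_one, ← integral_Icc_eq_integral_Ioc,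
    ← integral_indicator measurableSet_Icc]
  congr 1
  ext y
  by_cases hy : y ∈ Set.Icc (0 : ℝ) 1
  · rw [Set.indicator_of_mem hy, intervalIntegral.integral_of_le (by linarith [hy.2]),
      ← integral_indicator measurableSet_Ioc]
    congr 1
    ext x
    by_cases hx : x ∈ Set.Ioc (0 : ℝ) (1 - y)
    · rw [Set.indicator_of_mem hx, Set.indicator_of_mem]
      exact ⟨hx.1, hy.1, by have := hx.2; simp only; linarith⟩
    · rw [Set.indicator_of_notMem hx, Set.indicator_of_notMem]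
      rintro ⟨h1, h2, h3⟩
      exact hx ⟨h1, by simp only at h3; linarith⟩
  · rw [Set.indicator_of_notMem hy]
    have : (fun x => D2.indicator F (x, y)) = fun _ => 0 := by
      ext x
      rw [Set.indicator_of_notMem]
      rintro ⟨h1, h2, h3⟩
      simp only at h1 h2 h3
      exact hy ⟨h2, by linarith⟩
    rw [this, integral_zero]

/-- antiderivative -/
theorem exists_anti (P : ℂ[X]) : ∃ Q : ℂ[X], derivative Q = P := by
  refine ⟨∑ i ∈ Finset.range (P.natDegree + 1), C (P.coeff i / (i + 1)) * X ^ (i + 1), ?_⟩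
  rw [derivative_sum]
  conv_rhs => rw [P.as_sum_range_C_mul_X_pow]
  refine Finset.sum_congr rfl fun i _ => ?_
  rw [derivative_C_mul, derivative_X_pow, Nat.add_sub_cancel, ← mul_assoc, ← C_mul]
  congr 2
  push_cast
  have : (i : ℂ) + 1 ≠ 0 := by exact_mod_cast Nat.succ_ne_zero i
  field_simp

theorem line_int (Q : ℂ[X]) (a b : ℂ) : ∫ v in (0 : ℝ)..1,
    (b - a) * (derivative Q).eval (a + (b - a) * (v : ℂ)) = Q.eval b - Q.eval a := by
  have h1 : ∀ v : ℝ, HasDerivAt (fun v : ℝ => Q.eval (a + (b - a) * (v : ℂ)))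
      ((b - a) * (derivative Q).eval (a + (b - a) * (v : ℂ))) v := by
    intro v
    have h2 : HasDerivAt (fun z : ℂ => a + (b - a) * z) (b - a) (v : ℂ) := by
      have := ((hasDerivAt_id (v : ℂ)).const_mul (b - a)).const_add a
      simpa using this
    have h3 := (Q.hasDerivAt (a + (b - a) * (v : ℂ))).comp (v : ℂ) h2
    have h4 := h3.comp_ofReal
    rw [mul_comm] at h4
    exact h4
  rw [intervalIntegral.integral_eq_sub_of_hasDerivAt (fun v _ => h1 v)]
  · simp
  · apply Continuous.intervalIntegrable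
    have : Continuous fun v : ℝ => (derivative Q).eval (a + (b - a) * (v : ℂ)) :=
      (derivative Q).continuous.comp (by fun_prop)
    fun_prop

/-- Cauchy's theorem for polynomials on the triangle `0, 1, w`. -/
theorem cauchy_tri (P : ℂ[X]) (w : ℂ) : (1 - w) * ∫ v in (0 : ℝ)..1, P.eval ((1 - v) + w * v) =
    (∫ x in (0 : ℝ)..1, P.eval (x : ℂ)) - w * ∫ x in (0 : ℝ)..1, P.eval (w * x) := by
  obtain ⟨Q, hQ⟩ := exists_anti P
  have h1 := line_int Q 1 w
  have h2 := line_int Q 0 1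
  have h3 := line_int Q 0 w
  rw [hQ] at h1 h2 h3
  simp only [sub_zero, zero_add, one_mul] at h2 h3
  have e1 : ∀ v : ℝ, (1 : ℂ) + (w - 1) * (v : ℂ) = (1 - v) + w * v := by intro v; ring
  simp_rw [e1] at h1
  rw [intervalIntegral.integral_const_mul] at h1 h3
  rw [h2, h3]
  linear_combination -h1

/-- the monomials `z ^ m * conj z ^ l` on the triangle, in coordinates `z = x + w y` -/
def gg (w : ℂ) (m l : ℕ) (p : ℝ × ℝ) : ℂ :=
  ((p.1 : ℂ) + w * p.2) ^ m * ((p.1 : ℂ) + (starRingEnd ℂ) w * p.2) ^ l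

theorem gg_cont (w : ℂ) (m l : ℕ) : Continuous (gg w m l) := by
  unfold gg
  fun_prop

theorem tri_formula {w : ℂ} (hw : w * (starRingEnd ℂ) w = 1) (hS : w.im ≠ 0) (m l : ℕ)
    (hml : w ^ (m + 1) * (starRingEnd ℂ) w ^ (l + 1) = 1) :
    ((l : ℂ) + 1) * (w.im : ℂ) * ∫ p in D2, gg w m l p =
      ∫ x in (0 : ℝ)..1, (x : ℂ) ^ m * ((((1 + w * (1 - (x : ℂ))) ^ (l + 1)).im : ℝ) : ℂ) := by
  set v : ℂ := (starRingEnd ℂ) w with hv
  -- the two partial derivatives
  set Gx : ℝ × ℝ → ℂ := fun p => (m : ℂ) * ((p.1 : ℂ) + w * p.2) ^ (m - 1) *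
    ((p.1 : ℂ) + v * p.2) ^ (l + 1) + ((p.1 : ℂ) + w * p.2) ^ m *
      (((l : ℂ) + 1) * ((p.1 : ℂ) + v * p.2) ^ l) with hGx
  set Gy : ℝ × ℝ → ℂ := fun p => (m : ℂ) * ((p.1 : ℂ) + w * p.2) ^ (m - 1) * w *
    ((p.1 : ℂ) + v * p.2) ^ (l + 1) + ((p.1 : ℂ) + w * p.2) ^ m *
      (((l : ℂ) + 1) * ((p.1 : ℂ) + v * p.2) ^ l * v) with hGy
  have hGxc : Continuous Gx := by rw [hGx]; fun_prop
  have hGyc : Continuous Gy := by rw [hGy]; fun_prop
  have hgc := gg_cont w m l
  set G : ℝ → ℝ → ℂ := fun x y => ((x : ℂ) + w * y) ^ m * ((x : ℂ) + v * y) ^ (l + 1) with hG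
  have hdx : ∀ x y : ℝ, HasDerivAt (fun x : ℝ => G x y) (Gx (x, y)) x := by
    intro x y
    have h1 : HasDerivAt (fun z : ℂ => (z + w * y)) 1 (x : ℂ) := by
      simpa using (hasDerivAt_id (x : ℂ)).add_const (w * y)
    have h2 : HasDerivAt (fun z : ℂ => (z + v * y)) 1 (x : ℂ) := by
      simpa using (hasDerivAt_id (x : ℂ)).add_const (v * y)
    have h3 := (((h1.pow m).mul (h2.pow (l + 1))).comp_ofReal)
    refine HasDerivAt.congr_deriv (f := fun x : ℝ => G x y) h3 ?_
    simp only [hGx, Pi.pow_apply, Nat.add_sub_cancel]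
    push_cast
    ring
  have hdy : ∀ x y : ℝ, HasDerivAt (fun y : ℝ => G x y) (Gy (x, y)) y := by
    intro x y
    have h1 : HasDerivAt (fun z : ℂ => ((x : ℂ) + w * z)) w (y : ℂ) := by
      simpa using ((hasDerivAt_id (y : ℂ)).const_mul w).const_add (x : ℂ)
    have h2 : HasDerivAt (fun z : ℂ => ((x : ℂ) + v * z)) v (y : ℂ) := by
      simpa using ((hasDerivAt_id (y : ℂ)).const_mul v).const_add (x : ℂ)
    have h3 := (((h1.pow m).mul (h2.pow (l + 1))).comp_ofReal)
    refine HasDerivAt.congr_deriv (f := fun y : ℝ => G x y) h3 ?_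
    simp only [hGy, Pi.pow_apply, Nat.add_sub_cancel]
    push_cast
    ring
  have hcomb : ∀ p, ((l : ℂ) + 1) * (v - w) * gg w m l p = Gy p - w * Gx p := by
    intro p
    simp only [hGx, hGy, gg]
    ring
  have hI : ((l : ℂ) + 1) * (v - w) * ∫ p in D2, gg w m l p =
      (∫ p in D2, Gy p) - w * ∫ p in D2, Gx p := by
    rw [← integral_const_mul, ← integral_const_mul, ← integral_sub (D2_int hGyc)
      ((D2_int hGxc).const_mul w)]
    congr 1
    ext p
    exact hcomb p
  have hIy : ∫ p in D2, Gy p = ∫ x in (0 : ℝ)..1, (G x (1 - x) - G x 0) := by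
    rw [tri1 hGyc]
    congr 1
    ext x
    rw [intervalIntegral.integral_eq_sub_of_hasDerivAt (fun y _ => hdy x y)]
    exact (hGyc.comp (by fun_prop)).intervalIntegrable _ _
  have hIx : ∫ p in D2, Gx p = ∫ y in (0 : ℝ)..1, (G (1 - y) y - G 0 y) := by
    rw [tri2 hGxc]
    congr 1
    ext y
    rw [intervalIntegral.integral_eq_sub_of_hasDerivAt (fun x _ => hdx x y)]
    exact (hGxc.comp (by fun_prop)).intervalIntegrable _ _
  have c1 : Continuous fun x : ℝ => G x (1 - x) := by simp only [hG]; fun_prop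
  have c2 : Continuous fun x : ℝ => G x 0 := by simp only [hG]; fun_prop
  have c3 : Continuous fun x : ℝ => G (1 - x) x := by simp only [hG]; fun_prop
  have c4 : Continuous fun x : ℝ => G 0 x := by simp only [hG]; fun_prop
  rw [intervalIntegral.integral_sub (c1.intervalIntegrable _ _) (c2.intervalIntegrable _ _)] at hIy
  rw [intervalIntegral.integral_sub (c3.intervalIntegrable _ _) (c4.intervalIntegrable _ _)] at hIx
  have hswap : ∫ x in (0 : ℝ)..1, G x (1 - x) = ∫ x in (0 : ℝ)..1, G (1 - x) x := by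
    have := intervalIntegral.integral_comp_sub_left (a := 0) (b := 1)
      (fun x : ℝ => G x (1 - x)) 1
    simp only [sub_sub_cancel, sub_self, sub_zero] at this
    exact this.symm
  have hcancel : w * ∫ y in (0 : ℝ)..1, G 0 y = ∫ x in (0 : ℝ)..1, G x 0 := by
    rw [← intervalIntegral.integral_const_mul]
    congr 1
    ext x
    simp only [hG]
    have : w * (((0 : ℝ) : ℂ) + w * x) ^ m * (((0 : ℝ) : ℂ) + v * x) ^ (l + 1) =
        (w ^ (m + 1) * v ^ (l + 1)) * ((x : ℂ) ^ m * (x : ℂ) ^ (l + 1)) := by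
      rw [Complex.ofReal_zero, zero_add, zero_add, mul_pow, mul_pow]
      ring
    rw [← mul_assoc, this, hml]
    simp
  -- the Cauchy part
  set P : ℂ[X] := X ^ m * (C (1 + v) - C v * X) ^ (l + 1) with hP
  have hc := cauchy_tri P w
  have hPe : ∀ z : ℂ, P.eval z = z ^ m * (1 + v - v * z) ^ (l + 1) := by
    intro z
    simp [hP]
  have e1 : ∫ t in (0 : ℝ)..1, P.eval ((1 - (t : ℂ)) + w * t) = ∫ x in (0 : ℝ)..1, G (1 - x) x := by
    congr 1
    ext t
    rw [hPe]
    simp only [hG]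
    have : 1 + v - v * ((1 - (t : ℂ)) + w * t) = ((1 - t : ℝ) : ℂ) + v * t := by
      push_cast
      linear_combination (-(t : ℂ)) * hw
    rw [this]
    push_cast
    ring
  rw [e1] at hc
  have e2 : ∀ x : ℝ, P.eval (x : ℂ) = (x : ℂ) ^ m * (starRingEnd ℂ) ((1 + w * (1 - (x : ℂ))) ^ (l + 1)) := by
    intro x
    rw [hPe, map_pow]
    congr 2
    simp only [map_add, map_one, map_mul, map_sub, Complex.conj_ofReal, ← hv]
    ring
  have e3 : ∀ x : ℝ, w * P.eval (w * x) = (x : ℂ) ^ m * (1 + w * (1 - (x : ℂ))) ^ (l + 1) := by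
    intro x
    rw [hPe]
    have : 1 + v - v * (w * x) = v * (1 + w * (1 - (x : ℂ))) := by
      linear_combination (-1 : ℂ) * hw
    rw [this, mul_pow, mul_pow]
    calc w * (w ^ m * (x : ℂ) ^ m * (v ^ (l + 1) * (1 + w * (1 - (x : ℂ))) ^ (l + 1)))
        = (w ^ (m + 1) * v ^ (l + 1)) * ((x : ℂ) ^ m * (1 + w * (1 - (x : ℂ))) ^ (l + 1)) := by ring
      _ = _ := by rw [hml, one_mul]
  have hSc : (w.im : ℂ) ≠ 0 := by exact_mod_cast hS
  have hvw : v - w = -((2 * w.im : ℝ) * Complex.I) := by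
    rw [← neg_sub, hv, Complex.sub_conj]
  have e4 : (∫ x in (0 : ℝ)..1, P.eval (x : ℂ)) - w * ∫ x in (0 : ℝ)..1, P.eval (w * x) =
      (v - w) * ((w.im : ℂ))⁻¹ * ∫ x in (0 : ℝ)..1,
        (x : ℂ) ^ m * ((((1 + w * (1 - (x : ℂ))) ^ (l + 1)).im : ℝ) : ℂ) := by
    rw [← intervalIntegral.integral_const_mul, ← intervalIntegral.integral_const_mul,
      ← intervalIntegral.integral_sub]
    · congr 1
      ext x
      rw [e2, e3, ← mul_sub, ← neg_sub, Complex.sub_conj, hvw]
      field_simp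
      push_cast
      ring
    · apply Continuous.intervalIntegrable
      exact P.continuous.comp (by fun_prop)
    · apply Continuous.intervalIntegrable
      exact continuous_const.mul (P.continuous.comp (by fun_prop))
  have hvw0 : v - w ≠ 0 := by
    rw [hvw]
    simp [hS]
  have hfin : (v - w) * (((l : ℂ) + 1) * (w.im : ℂ) * ∫ p in D2, gg w m l p) =
      (v - w) * ∫ x in (0 : ℝ)..1,
        (x : ℂ) ^ m * ((((1 + w * (1 - (x : ℂ))) ^ (l + 1)).im : ℝ) : ℂ) := by
    have h1 : (w.im : ℂ) * (((l : ℂ) + 1) * (v - w) * ∫ p in D2, gg w m l p) =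
        (w.im : ℂ) * ((v - w) * ((w.im : ℂ))⁻¹ * ∫ x in (0 : ℝ)..1,
        (x : ℂ) ^ m * ((((1 + w * (1 - (x : ℂ))) ^ (l + 1)).im : ℝ) : ℂ)) := by
      rw [← e4, ← hc, hI, hIy, hIx, hswap, ← hcancel]
      ring
    have h2 : (w.im : ℂ) * ((v - w) * ((w.im : ℂ))⁻¹ * ∫ x in (0 : ℝ)..1,
        (x : ℂ) ^ m * ((((1 + w * (1 - (x : ℂ))) ^ (l + 1)).im : ℝ) : ℂ)) =
        (v - w) * ∫ x in (0 : ℝ)..1,
        (x : ℂ) ^ m * ((((1 + w * (1 - (x : ℂ))) ^ (l + 1)).im : ℝ) : ℂ) := by
      field_simp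
    rw [← h2, ← h1]
    ring
  exact mul_left_cancel₀ hvw0 hfin

end

end Run7.h887.BP
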