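import Mathlib
import Pool.Agent.Run7.h887.BP.Tri
import Pool.Agent.Run7.h887.BP.Bound

/-!
# Moments of the regular triangle and of the square
-/

open MeasureTheory Polynomial

namespace Run7.h887.BP

noncomputable section

theorem IsW.im_pos {N : ℕ} {w : ℂ} (h : IsW N w) : 0 < w.im := by
  rcases h with ⟨_, _, h2⟩ | ⟨_, _, h2⟩
  · rw [h2]; have := s3pos; positivity
  · rw [h2]; norm_num

theorem IsW.pow_eq {N : ℕ} {w : ℂ} (h : IsW N w) : w ^ N = 1 := by
  rcases h with ⟨rfl, h1, h2⟩ | ⟨rfl, h1, h2⟩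
  · have hw := w3 h1 h2
    rw [pow_succ, hw, sub_mul, neg_mul, one_mul, ← pow_two, hw]; ring
  · rw [w4 h1 h2]
    exact Complex.I_pow_four

theorem IsW.mul_conj {N : ℕ} {w : ℂ} (h : IsW N w) : w * (starRingEnd ℂ) w = 1 := by
  rw [Complex.mul_conj, Complex.normSq_apply]
  rcases h with ⟨_, h1, h2⟩ | ⟨_, h1, h2⟩
  · rw [h1, h2]
    have : (-1 / 2 : ℝ) * (-1 / 2) + √3 / 2 * (√3 / 2) = 1 := by nlinarith [s3]
    rw [this, Complex.ofReal_one]
  · rw [h1, h2]; simp

theorem IsW.prim {N : ℕ} {w : ℂ} (h : IsW N w) : IsPrimitiveRoot w N := by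
  have hp := h.pow_eq
  have him := h.im_pos
  rcases h with ⟨rfl, h1, h2⟩ | ⟨rfl, h1, h2⟩
  · refine IsPrimitiveRoot.mk_of_lt w (by norm_num) hp ?_
    intro l hl0 hl hl1
    have hl' : l = 1 ∨ l = 2 := by omega
    rcases hl' with rfl | rfl
    · rw [pow_one] at hl1
      rw [hl1] at him
      simp at him
    · rw [w3 h1 h2] at hl1
      have := congrArg Complex.im hl1
      simp only [Complex.sub_im, Complex.neg_im, Complex.one_im] at this
      linarith
  · refine IsPrimitiveRoot.mk_of_lt w (by norm_num) hp ?_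
    intro l hl0 hl hl1
    have hl' : l = 1 ∨ l = 2 ∨ l = 3 := by omega
    rw [w4 h1 h2] at hl1
    rcases hl' with rfl | rfl | rfl
    · have := congrArg Complex.im hl1
      simp at this
    · rw [Complex.I_sq] at hl1
      have := congrArg Complex.re hl1
      norm_num at this
    · rw [Complex.I_pow_three] at hl1
      have := congrArg Complex.im hl1
      simp at this

theorem rho_iff {N : ℕ} {w : ℂ} (h : IsW N w) (m l : ℕ) :
    w ^ m * (starRingEnd ℂ) w ^ l = 1 ↔ m % N = l % N := by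
  have hN : 0 < N := by rcases h with ⟨h, _⟩ | ⟨h, _⟩ <;> omega
  have hmod : ∀ a : ℕ, w ^ a = w ^ (a % N) := by
    intro a
    conv_lhs => rw [← Nat.div_add_mod a N, pow_add, pow_mul, h.pow_eq, one_pow, one_mul]
  have h1 : w ^ m * (starRingEnd ℂ) w ^ l = 1 ↔ w ^ m = w ^ l := by
    have hc : w ^ l * (starRingEnd ℂ) w ^ l = 1 := by rw [← mul_pow, h.mul_conj, one_pow]
    constructor
    · intro h2
      calc w ^ m = w ^ m * (w ^ l * (starRingEnd ℂ) w ^ l) := by rw [hc, mul_one]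
        _ = (w ^ m * (starRingEnd ℂ) w ^ l) * w ^ l := by ring
        _ = w ^ l := by rw [h2, one_mul]
    · intro h2
      rw [h2, hc]
  rw [h1, hmod m, hmod l]
  constructor
  · intro h2
    exact h.prim.pow_inj (Nat.mod_lt _ hN) (Nat.mod_lt _ hN) h2
  · intro h2
    rw [h2]

/-! ### coordinates -/

def X0 (w z : ℂ) : ℝ := z.re - w.re / w.im * z.im

def Y0 (w z : ℂ) : ℝ := z.im / w.im

theorem coord {w : ℂ} (hS : w.im ≠ 0) (z : ℂ) : z = (X0 w z : ℂ) + w * (Y0 w z : ℂ) := by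
  apply Complex.ext
  · rw [Complex.add_re, Complex.ofReal_re, Complex.re_mul_ofReal]
    unfold X0 Y0
    field_simp
    ring
  · rw [Complex.add_im, Complex.ofReal_im, Complex.im_mul_ofReal]
    unfold Y0
    field_simp
    ring

theorem X0_mk {w : ℂ} (hS : w.im ≠ 0) (x y : ℝ) : X0 w ((x : ℂ) + w * y) = x := by
  unfold X0
  rw [Complex.add_re, Complex.ofReal_re, Complex.re_mul_ofReal, Complex.add_im, Complex.ofReal_im,
    Complex.im_mul_ofReal]
  field_simp
  ring

theorem Y0_mk {w : ℂ} (hS : w.im ≠ 0) (x y : ℝ) : Y0 w ((x : ℂ) + w * y) = y := by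
  unfold Y0
  rw [Complex.add_im, Complex.ofReal_im, Complex.im_mul_ofReal]
  field_simp
  ring

theorem X0_cont (w : ℂ) : Continuous (X0 w) := by unfold X0; fun_prop

theorem Y0_cont (w : ℂ) : Continuous (Y0 w) := by unfold Y0; fun_prop

/-- the triangle -/
def TT (w : ℂ) : Set ℂ := {z | 0 < X0 w z ∧ 0 ≤ Y0 w z ∧ X0 w z + Y0 w z ≤ 1}

theorem TT_meas (w : ℂ) : MeasurableSet (TT w) := by
  unfold TT
  refine (measurableSet_lt measurable_const (X0_cont w).measurable).inter
    ((measurableSet_le measurable_const (Y0_cont w).measurable).inter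
      (measurableSet_le ((X0_cont w).measurable.add (Y0_cont w).measurable) measurable_const))

def AA (w : ℂ) : ℂ →L[ℝ] ℂ := Complex.reCLM.smulRight (1 : ℂ) + Complex.imCLM.smulRight w

theorem AA_apply (w z : ℂ) : AA w z = (z.re : ℂ) + w * z.im := by
  simp only [AA, _root_.add_apply, ContinuousLinearMap.smulRight_apply,
    Complex.reCLM_apply, Complex.imCLM_apply, Complex.real_smul]
  ring

theorem AA_det (w : ℂ) : (AA w).det = w.im := by
  rw [ContinuousLinearMap.det, ← LinearMap.det_toMatrix Complex.basisOneI, Matrix.det_fin_two]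
  simp only [LinearMap.toMatrix_apply, ContinuousLinearMap.coe_coe, AA_apply,
    Complex.coe_basisOneI, Complex.coe_basisOneI_repr]
  simp

theorem TT_image {w : ℂ} (hS : w.im ≠ 0) :
    AA w '' (Complex.measurableEquivRealProd ⁻¹' D2) = TT w := by
  ext z
  constructor
  · rintro ⟨u, hu, rfl⟩
    rw [Set.mem_preimage, Complex.measurableEquivRealProd_apply] at hu
    rw [AA_apply]
    unfold TT
    rw [Set.mem_ofPred_eq, X0_mk hS, Y0_mk hS]
    exact hu
  · intro hz
    refine ⟨⟨X0 w z, Y0 w z⟩, ?_, ?_⟩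
    · rw [Set.mem_preimage, Complex.measurableEquivRealProd_apply]
      exact hz
    · rw [AA_apply]
      exact (coord hS z).symm

theorem int_TT {w : ℂ} (hS : 0 < w.im) (m l : ℕ) :
    ∫ z in TT w, z ^ m * (starRingEnd ℂ) z ^ l = (w.im : ℂ) * ∫ p in D2, gg w m l p := by
  have hS' := hS.ne'
  have hmeas : MeasurableSet (Complex.measurableEquivRealProd ⁻¹' D2) :=
    Complex.measurableEquivRealProd.measurable D2_meas
  rw [← TT_image hS']
  rw [integral_image_eq_integral_abs_det_fderiv_smul volume hmeas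
    (fun x _ => (AA w).hasFDerivAt.hasFDerivWithinAt)]
  · rw [AA_det, abs_of_pos hS]
    have h1 := Complex.volume_preserving_equiv_real_prod.setIntegral_preimage_emb
      Complex.measurableEquivRealProd.measurableEmbedding
      (fun p : ℝ × ℝ => w.im • gg w m l p) D2
    rw [← integral_const_mul]
    simp_rw [← Complex.real_smul]
    rw [← h1]
    congr 1
    ext z
    congr 1
    rw [Complex.measurableEquivRealProd_apply]
    unfold gg
    rw [AA_apply]
    simp only [map_add, map_mul, Complex.conj_ofReal]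
  · intro a _ b _ hab
    rw [AA_apply, AA_apply] at hab
    have h1 := X0_mk hS' a.re a.im
    have h2 := X0_mk hS' b.re b.im
    have h3 := Y0_mk hS' a.re a.im
    have h4 := Y0_mk hS' b.re b.im
    apply Complex.ext
    · rw [← h1, hab, h2]
    · rw [← h3, hab, h4]

/-- rotated triangles -/
def Tk (w : ℂ) (k : ℕ) : Set ℂ := {z | (starRingEnd ℂ) w ^ k * z ∈ TT w}

theorem Tk_meas (w : ℂ) (k : ℕ) : MeasurableSet (Tk w k) := by
  have : Measurable fun z : ℂ => (starRingEnd ℂ) w ^ k * z := by fun_prop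
  exact this (TT_meas w)

theorem int_Tk {N : ℕ} {w : ℂ} (h : IsW N w) (m l k : ℕ) :
    ∫ z in Tk w k, z ^ m * (starRingEnd ℂ) z ^ l =
      (w ^ m * (starRingEnd ℂ) w ^ l) ^ k * ((w.im : ℂ) * ∫ p in D2, gg w m l p) := by
  have hn : ‖(starRingEnd ℂ) w ^ k‖ = 1 := by
    rw [norm_pow, Complex.norm_conj]
    have : ‖w‖ = 1 := Complex.norm_eq_one_of_pow_eq_one h.pow_eq (by
      rcases h with ⟨h, _⟩ | ⟨h, _⟩ <;> omega)
    rw [this, one_pow]
  set u : Circle := ⟨(starRingEnd ℂ) w ^ k, mem_sphere_zero_iff_norm.2 hn⟩ with hu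
  have h1 := (rotation u).measurePreserving.setIntegral_preimage_emb
    (rotation u).toHomeomorph.measurableEmbedding
    (fun z : ℂ => (w ^ k * z) ^ m * (starRingEnd ℂ) (w ^ k * z) ^ l) (TT w)
  have h2 : (rotation u) ⁻¹' (TT w) = Tk w k := by
    ext z
    rw [Set.mem_preimage, rotation_apply]
    rfl
  have h3 : ∀ z : ℂ, w ^ k * (rotation u z) = z := by
    intro z
    rw [rotation_apply]
    show w ^ k * ((starRingEnd ℂ) w ^ k * z) = z
    rw [← mul_assoc, ← mul_pow, h.mul_conj, one_pow, one_mul]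
  have h4 : ∫ z in Tk w k, z ^ m * (starRingEnd ℂ) z ^ l =
      ∫ z in TT w, (w ^ k * z) ^ m * (starRingEnd ℂ) (w ^ k * z) ^ l := by
    rw [← h1]
    have e : ∀ z : ℂ, (w ^ k * (rotation u z)) ^ m * (starRingEnd ℂ) (w ^ k * (rotation u z)) ^ l =
        z ^ m * (starRingEnd ℂ) z ^ l := fun z => by rw [h3]
    rw [← h2]
    refine integral_congr_ae (Filter.Eventually.of_forall fun z => ?_)
    exact (e z).symm
  rw [h4, ← int_TT h.im_pos, ← integral_const_mul]
  congr 1
  ext z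
  rw [map_mul, map_pow, mul_pow, mul_pow, mul_pow]
  ring

/-! ### The polygon -/

/-- the closed polygon -/
def KK (N : ℕ) : Set ℂ := convexHull ℝ {z : ℂ | z ^ N = 1}

theorem KK_convex (N : ℕ) : Convex ℝ (KK N) := convex_convexHull ℝ _

theorem KK_root {N : ℕ} {z : ℂ} (hz : z ^ N = 1) : z ∈ KK N := subset_convexHull ℝ _ hz

theorem KK_ball {N : ℕ} (hN : N ≠ 0) : KK N ⊆ Metric.closedBall 0 1 := by
  refine convexHull_min ?_ (convex_closedBall 0 1)
  intro z hz
  rw [mem_closedBall_zero_iff, Complex.norm_eq_one_of_pow_eq_one hz hN]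

theorem sum_le_one {N : ℕ} {w : ℂ} (h : IsW N w) {u : ℂ} (hu : u ^ N = 1) :
    X0 w u + Y0 w u ≤ 1 := by
  have P2 : ∀ z : ℂ, (z ^ 2).im = 2 * z.re * z.im := by
    intro z; rw [pow_two, Complex.mul_im]; ring
  have Q2 : ∀ z : ℂ, (z ^ 2).re = z.re ^ 2 - z.im ^ 2 := by
    intro z; rw [pow_two, Complex.mul_re]; ring
  have P3 : ∀ z : ℂ, (z ^ 3).im = 3 * z.re ^ 2 * z.im - z.im ^ 3 := by
    intro z; rw [pow_succ, Complex.mul_im, P2, Q2]; ring
  have Q3 : ∀ z : ℂ, (z ^ 3).re = z.re ^ 3 - 3 * z.re * z.im ^ 2 := by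
    intro z; rw [pow_succ, Complex.mul_re, P2, Q2]; ring
  have P4 : ∀ z : ℂ, (z ^ 4).im = 4 * z.re ^ 3 * z.im - 4 * z.re * z.im ^ 3 := by
    intro z; rw [pow_succ, Complex.mul_im, P3, Q3]; ring
  have Q4 : ∀ z : ℂ, (z ^ 4).re = z.re ^ 4 - 6 * z.re ^ 2 * z.im ^ 2 + z.im ^ 4 := by
    intro z; rw [pow_succ, Complex.mul_re, P3, Q3]; ring
  rcases h with ⟨rfl, h1, h2⟩ | ⟨rfl, h1, h2⟩
  · have hs := s3
    have hp := s3pos
    have hre := congrArg Complex.re hu
    have him := congrArg Complex.im hu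
    rw [Q3, Complex.one_re] at hre
    rw [P3, Complex.one_im] at him
    obtain ⟨a, b⟩ := u
    simp only at hre him
    have e : X0 w ⟨a, b⟩ + Y0 w ⟨a, b⟩ = a + √3 * b := by
      unfold X0 Y0
      rw [h1, h2]
      simp only
      field_simp
      linear_combination (-b) * hs
    rw [e]
    have hb : b * (3 * a ^ 2 - b ^ 2) = 0 := by linarith
    rcases mul_eq_zero.1 hb with hb | hb
    · subst hb
      have : a ^ 3 = 1 := by linarith
      have h3 : (a - 1) * (a ^ 2 + a + 1) = 0 := by linarith [this]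
      rcases mul_eq_zero.1 h3 with h4 | h4
      · linarith
      · nlinarith [sq_nonneg (a + 1 / 2)]
    · have hb2 : b ^ 2 = 3 * a ^ 2 := by linarith
      have h8 : (2 * a + 1) * (4 * a ^ 2 - 2 * a + 1) = 0 := by
        have : a ^ 3 - 3 * a * (3 * a ^ 2) = 1 := by rw [← hb2]; linarith
        nlinarith
      rcases mul_eq_zero.1 h8 with h9 | h9
      · have ha : a = -1 / 2 := by linarith
        have hb3 : (√3 * b) ^ 2 = (3 / 2) ^ 2 := by
          rw [mul_pow, hb2, ha, pow_two, hs]; norm_num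
        have hb4 : √3 * b ≤ 3 / 2 := by
          have := abs_le_of_sq_le_sq hb3.le (by norm_num)
          exact (le_abs_self _).trans this
        linarith
      · nlinarith [sq_nonneg (2 * a - 1 / 2)]
  · have hre := congrArg Complex.re hu
    have him := congrArg Complex.im hu
    rw [Q4, Complex.one_re] at hre
    rw [P4, Complex.one_im] at him
    obtain ⟨a, b⟩ := u
    simp only at hre him
    have e : X0 w ⟨a, b⟩ + Y0 w ⟨a, b⟩ = a + b := by
      unfold X0 Y0
      rw [h1, h2]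
      simp
    rw [e]
    have hab : a * b * ((a - b) * (a + b)) = 0 := by linarith
    rcases mul_eq_zero.1 hab with hz | hz
    · have h5 : (a + b) ^ 4 = 1 := by
        have : (a + b) ^ 4 = (a ^ 4 - 6 * a ^ 2 * b ^ 2 + b ^ 4) +
          (a * b) * (4 * a ^ 2 + 12 * a * b + 4 * b ^ 2) := by ring
        rw [this, hz, hre]; ring
      by_contra hlt
      rw [not_le] at hlt
      have := one_lt_pow₀ hlt (show (4 : ℕ) ≠ 0 by norm_num)
      linarith
    · rcases mul_eq_zero.1 hz with h6 | h6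
      · have h7 : a = b := by linarith
        subst h7
        nlinarith [sq_nonneg (a ^ 2)]
      · linarith

theorem KK_le {N : ℕ} {w : ℂ} (h : IsW N w) (k : ℕ) {z : ℂ} (hz : z ∈ KK N) :
    X0 w ((starRingEnd ℂ) w ^ k * z) + Y0 w ((starRingEnd ℂ) w ^ k * z) ≤ 1 := by
  have hlin : IsLinearMap ℝ (fun z : ℂ => X0 w ((starRingEnd ℂ) w ^ k * z) +
      Y0 w ((starRingEnd ℂ) w ^ k * z)) := by
    constructor
    · intro a b
      simp only [X0, Y0, mul_add, Complex.add_re, Complex.add_im]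
      ring
    · intro c a
      simp only [X0, Y0, Complex.real_smul, smul_eq_mul]
      have : (starRingEnd ℂ) w ^ k * ((c : ℂ) * a) = (c : ℂ) * ((starRingEnd ℂ) w ^ k * a) := by ring
      rw [this, Complex.re_ofReal_mul, Complex.im_ofReal_mul]
      ring
  have hsub : KK N ⊆ {z : ℂ | X0 w ((starRingEnd ℂ) w ^ k * z) +
      Y0 w ((starRingEnd ℂ) w ^ k * z) ≤ 1} := by
    refine convexHull_min ?_ (convex_halfSpace_le hlin 1)
    intro u hu
    apply sum_le_one h
    rw [mul_pow, show u ^ N = 1 from hu, mul_one, ← pow_mul, mul_comm k N, pow_mul, ← map_pow,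
      h.pow_eq, map_one, one_pow]
  exact hsub hz

theorem zero_mem {N : ℕ} {w : ℂ} (h : IsW N w) : (0 : ℂ) ∈ KK N := by
  have hp := h.pow_eq
  rcases h with ⟨rfl, h1, h2⟩ | ⟨rfl, h1, h2⟩
  · have hw := w3 h1 h2
    have h0 : (1 : ℂ) ∈ KK 3 := KK_root (by norm_num)
    have h3 : w ∈ KK 3 := KK_root hp
    have h4 : w ^ 2 ∈ KK 3 := KK_root (by rw [← pow_mul, mul_comm, pow_mul, hp, one_pow])
    have := (KK_convex 3).sum_mem (t := Finset.univ) (w := ![(1 / 3 : ℝ), 1 / 3, 1 / 3])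
      (z := ![(1 : ℂ), w, w ^ 2]) (by
        intro i _
        fin_cases i <;> norm_num) (by
        rw [Fin.sum_univ_three]
        show (1 / 3 : ℝ) + 1 / 3 + 1 / 3 = 1
        norm_num) (by
        intro i _
        fin_cases i
        · exact h0
        · exact h3
        · exact h4)
    rw [Fin.sum_univ_three] at this
    have this' : (3 : ℂ)⁻¹ + 3⁻¹ * w + 3⁻¹ * w ^ 2 ∈ KK 3 := by simpa using this
    have e : (3 : ℂ)⁻¹ + 3⁻¹ * w + 3⁻¹ * w ^ 2 = 0 := by
      rw [hw]; ring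
    rwa [e] at this'
  · have h0 : (1 : ℂ) ∈ KK 4 := KK_root (by norm_num)
    have h3 : (-1 : ℂ) ∈ KK 4 := KK_root (by norm_num)
    have := (KK_convex 4) h0 h3 (a := 1 / 2) (b := 1 / 2) (by norm_num) (by norm_num) (by norm_num)
    simpa using this

theorem Tk_sub {N : ℕ} {w : ℂ} (h : IsW N w) (k : ℕ) : Tk w k ⊆ KK N \ {0} := by
  intro z hz
  obtain ⟨hx, hy, hxy⟩ := hz
  set u := (starRingEnd ℂ) w ^ k * z with hu
  refine ⟨?_, ?_⟩
  · have hz' : z = (X0 w u : ℂ) * w ^ k + (Y0 w u : ℂ) * w ^ (k + 1) := by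
      have h1 : z = w ^ k * u := by
        rw [hu, ← mul_assoc, ← mul_pow, h.mul_conj, one_pow, one_mul]
      have h2 := coord h.im_pos.ne' u
      calc z = w ^ k * u := h1
        _ = w ^ k * ((X0 w u : ℂ) + w * (Y0 w u : ℂ)) := by rw [← h2]
        _ = _ := by ring
    have hk : ∀ k : ℕ, w ^ k ∈ KK N := fun k => KK_root (by
      rw [← pow_mul, mul_comm, pow_mul, h.pow_eq, one_pow])
    have := (KK_convex N).sum_mem (t := Finset.univ) (w := ![X0 w u, Y0 w u, 1 - X0 w u - Y0 w u])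
      (z := ![w ^ k, w ^ (k + 1), 0]) (by
        intro i _
        fin_cases i
        · exact hx.le
        · exact hy
        · show 0 ≤ 1 - X0 w u - Y0 w u
          linarith) (by
        rw [Fin.sum_univ_three]
        simp) (by
        intro i _
        fin_cases i
        · exact hk k
        · exact hk (k + 1)
        · exact zero_mem h)
    rw [Fin.sum_univ_three] at this
    rw [hz']
    simpa using this
  · intro h0
    rw [Set.mem_singleton_iff] at h0
    rw [hu, h0, mul_zero] at hx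
    simp [X0] at hx

/-- the values in the sectors -/
theorem sec3 {w : ℂ} (h1 : w.re = -1 / 2) (h2 : w.im = √3 / 2) (z : ℂ) :
    ∃ a c : ℝ, X0 w z = a + c ∧ Y0 w z = 2 * c ∧ X0 w ((starRingEnd ℂ) w * z) = -a + c ∧
      Y0 w ((starRingEnd ℂ) w * z) = -a - c ∧ X0 w ((starRingEnd ℂ) w ^ 2 * z) = -2 * c ∧
      Y0 w ((starRingEnd ℂ) w ^ 2 * z) = a - c ∧ (a = 0 → c = 0 → z = 0) := by
  have hs := s3
  have hp := s3pos
  have hb : z.im = √3 * (z.im / √3) := by field_simp
  set c := z.im / √3 with hc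
  have hw := w3 h1 h2
  have hc2 : (starRingEnd ℂ) w ^ 2 = w := by
    rw [← map_pow, hw, map_sub, map_neg, map_one]
    apply Complex.ext
    · simp [h1]; norm_num
    · simp
  have hr : w.re / w.im = -1 / √3 := by rw [h1, h2]; field_simp
  have hs2 : √3 ^ 2 = 3 := by rw [pow_two]; exact hs
  refine ⟨z.re, c, ?_, ?_, ?_, ?_, ?_, ?_, ?_⟩
  · unfold X0; rw [hr, hb]; field_simp
    ring
  · unfold Y0; rw [h2, hb]; field_simp
  · unfold X0; rw [hr, Complex.mul_re, Complex.mul_im, Complex.conj_re, Complex.conj_im, h1, h2, hb]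
    field_simp
    rw [hs2]
    ring
  · unfold Y0; rw [Complex.mul_im, Complex.conj_re, Complex.conj_im, h1, h2, hb]
    field_simp
    ring
  · rw [hc2]; unfold X0; rw [hr, Complex.mul_re, Complex.mul_im, h1, h2, hb]
    field_simp
    rw [hs2]
    ring
  · rw [hc2]; unfold Y0; rw [Complex.mul_im, h1, h2, hb]
    field_simp
    ring
  · intro ha hc0
    apply Complex.ext
    · rw [ha]; rfl
    · rw [hb, hc0, mul_zero]; rfl

theorem sec4 {w : ℂ} (h1 : w.re = 0) (h2 : w.im = 1) (z : ℂ) :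
    X0 w z = z.re ∧ Y0 w z = z.im ∧ X0 w ((starRingEnd ℂ) w * z) = z.im ∧
      Y0 w ((starRingEnd ℂ) w * z) = -z.re ∧ X0 w ((starRingEnd ℂ) w ^ 2 * z) = -z.re ∧
      Y0 w ((starRingEnd ℂ) w ^ 2 * z) = -z.im ∧ X0 w ((starRingEnd ℂ) w ^ 3 * z) = -z.im ∧
      Y0 w ((starRingEnd ℂ) w ^ 3 * z) = z.re := by
  rw [w4 h1 h2]
  refine ⟨?_, ?_, ?_, ?_, ?_, ?_, ?_, ?_⟩ <;>
    simp [X0, Y0, pow_succ]

theorem KK_eq {N : ℕ} {w : ℂ} (h : IsW N w) :
    KK N \ {0} = ⋃ k ∈ Finset.range N, Tk w k := by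
  apply Set.Subset.antisymm
  · rintro z ⟨hz, hz0⟩
    rw [Set.mem_singleton_iff] at hz0
    have hle := fun k => KK_le h k hz
    rw [Set.mem_iUnion₂]
    have key : ∃ k < N, 0 < X0 w ((starRingEnd ℂ) w ^ k * z) ∧
        0 ≤ Y0 w ((starRingEnd ℂ) w ^ k * z) := by
      rcases h with ⟨rfl, h1, h2⟩ | ⟨rfl, h1, h2⟩
      · obtain ⟨a, c, e1, e2, e3, e4, e5, e6, e7⟩ := sec3 h1 h2 z
        rcases lt_or_ge 0 (a + c) with hb | hb
        · rcases le_or_gt 0 c with hc | hc
          · exact ⟨0, by norm_num, by rw [pow_zero, one_mul, e1]; exact hb,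
              by rw [pow_zero, one_mul, e2]; linarith⟩
          · exact ⟨2, by norm_num, by rw [e5]; linarith, by rw [e6]; linarith⟩
        · rcases lt_or_ge 0 (-a + c) with hd | hd
          · exact ⟨1, by norm_num, by rw [pow_one, e3]; exact hd, by rw [pow_one, e4]; linarith⟩
          · rcases lt_or_ge c 0 with hc | hc
            · exact ⟨2, by norm_num, by rw [e5]; linarith, by rw [e6]; linarith⟩
            · exact absurd (e7 (by linarith) (by linarith)) hz0
      · obtain ⟨e1, e2, e3, e4, e5, e6, e7, e8⟩ := sec4 h1 h2 z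
        have hne : ¬(z.re = 0 ∧ z.im = 0) := fun hh => hz0 (Complex.ext hh.1 hh.2)
        rcases lt_trichotomy z.re 0 with ha | ha | ha
        · rcases lt_or_ge 0 z.im with hb | hb
          · exact ⟨1, by norm_num, by rw [pow_one, e3]; exact hb, by rw [pow_one, e4]; linarith⟩
          · exact ⟨2, by norm_num, by rw [e5]; linarith, by rw [e6]; linarith⟩
        · rcases lt_trichotomy z.im 0 with hb | hb | hb
          · exact ⟨3, by norm_num, by rw [e7]; linarith, by rw [e8]; linarith⟩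
          · exact absurd ⟨ha, hb⟩ hne
          · exact ⟨1, by norm_num, by rw [pow_one, e3]; exact hb, by rw [pow_one, e4]; linarith⟩
        · rcases lt_or_ge z.im 0 with hb | hb
          · exact ⟨3, by norm_num, by rw [e7]; linarith, by rw [e8]; linarith⟩
          · exact ⟨0, by norm_num, by rw [pow_zero, one_mul, e1]; exact ha,
              by rw [pow_zero, one_mul, e2]; exact hb⟩
    obtain ⟨k, hk, hx, hy⟩ := key
    exact ⟨k, Finset.mem_range.2 hk, hx, hy, hle k⟩
  · intro z hz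
    rw [Set.mem_iUnion₂] at hz
    obtain ⟨k, _, hk⟩ := hz
    exact Tk_sub h k hk

theorem Tk_disj {N : ℕ} {w : ℂ} (h : IsW N w) :
    Set.Pairwise (↑(Finset.range N)) (Function.onFun Disjoint (Tk w)) := by
  have key : ∀ i j, i < j → j < N → Disjoint (Tk w i) (Tk w j) := by
    intro i j hij hj
    rw [Set.disjoint_left]
    rintro z ⟨hx, hy, _⟩ ⟨hx', hy', _⟩
    rcases h with ⟨rfl, h1, h2⟩ | ⟨rfl, h1, h2⟩
    · obtain ⟨a, c, e1, e2, e3, e4, e5, e6, e7⟩ := sec3 h1 h2 z
      have : (i = 0 ∧ j = 1) ∨ (i = 0 ∧ j = 2) ∨ (i = 1 ∧ j = 2) := by omega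
      rcases this with ⟨rfl, rfl⟩ | ⟨rfl, rfl⟩ | ⟨rfl, rfl⟩ <;>
        simp only [pow_zero, pow_one, one_mul, e1, e2, e3, e4, e5, e6] at hx hy hx' hy' <;> linarith
    · obtain ⟨e1, e2, e3, e4, e5, e6, e7, e8⟩ := sec4 h1 h2 z
      have : (i = 0 ∧ j = 1) ∨ (i = 0 ∧ j = 2) ∨ (i = 0 ∧ j = 3) ∨ (i = 1 ∧ j = 2) ∨
          (i = 1 ∧ j = 3) ∨ (i = 2 ∧ j = 3) := by omega
      rcases this with ⟨rfl, rfl⟩ | ⟨rfl, rfl⟩ | ⟨rfl, rfl⟩ | ⟨rfl, rfl⟩ | ⟨rfl, rfl⟩ | ⟨rfl, rfl⟩ <;>
        simp only [pow_zero, pow_one, one_mul, e1, e2, e3, e4, e5, e6, e7, e8] at hx hy hx' hy' <;>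
        linarith
  intro i hi j hj hij
  rw [Finset.coe_range, Set.mem_Iio] at hi hj
  rcases lt_or_gt_of_ne hij with h1 | h1
  · exact key i j h1 hj
  · exact (key j i h1 hi).symm

theorem int_KK {N : ℕ} {w : ℂ} (h : IsW N w) {f : ℂ → ℂ} (hf : Continuous f) :
    ∫ z in interior (convexHull ℝ {z : ℂ | z ^ N = 1}), f z =
      ∑ k ∈ Finset.range N, ∫ z in Tk w k, f z := by
  have hN : N ≠ 0 := by rcases h with ⟨h, _⟩ | ⟨h, _⟩ <;> omega
  have h1 : interior (convexHull ℝ {z : ℂ | z ^ N = 1}) =ᵐ[volume] KK N :=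
    interior_ae_eq_of_null_frontier ((KK_convex N).addHaar_frontier volume)
  have h2 : (KK N \ {0} : Set ℂ) =ᵐ[volume] KK N := by
    apply sdiff_null_ae_eq_self
    simp
  rw [setIntegral_congr_set (h1.trans h2.symm), KK_eq h]
  rw [integral_biUnion_finset]
  · intro k _
    exact Tk_meas w k
  · exact Tk_disj h
  · intro k _
    exact (hf.continuousOn.integrableOn_compact (isCompact_closedBall 0 1)).mono_set
      (((Tk_sub h k).trans Set.sdiff_subset).trans (KK_ball hN))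

/-- **The moments.** -/
theorem moment_ne {N : ℕ} {w : ℂ} (h : IsW N w) {m l : ℕ} (hml : m % N ≠ l % N) :
    ∫ z in interior (convexHull ℝ {z : ℂ | z ^ N = 1}), z ^ m * (starRingEnd ℂ) z ^ l = 0 := by
  rw [int_KK h (by fun_prop)]
  simp_rw [int_Tk h]
  rw [← Finset.sum_mul]
  have h1 : w ^ m * (starRingEnd ℂ) w ^ l ≠ 1 := fun h2 => hml ((rho_iff h m l).1 h2)
  have h3 : (w ^ m * (starRingEnd ℂ) w ^ l) ^ N = 1 := by
    rw [mul_pow, ← pow_mul, ← pow_mul, mul_comm m, mul_comm l, pow_mul, pow_mul, h.pow_eq,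
      ← map_pow, h.pow_eq, map_one, one_pow, one_pow, one_mul]
  have h4 := geom_sum_mul (w ^ m * (starRingEnd ℂ) w ^ l) N
  rw [h3, sub_self] at h4
  rcases mul_eq_zero.1 h4 with h5 | h5
  · rw [h5, zero_mul]
  · exact absurd (sub_eq_zero.1 h5) h1

theorem moment_eq {N : ℕ} {w : ℂ} (h : IsW N w) {m l : ℕ} (hml : m % N = l % N) :
    ((l : ℂ) + 1) * ∫ z in interior (convexHull ℝ {z : ℂ | z ^ N = 1}),
      z ^ m * (starRingEnd ℂ) z ^ l =
    N * (((∫ x in (0 : ℝ)..1, x ^ m * ((1 + w * (1 - (x : ℂ))) ^ (l + 1)).im : ℝ)) : ℂ) := by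
  rw [int_KK h (by fun_prop)]
  simp_rw [int_Tk h, (rho_iff h m l).2 hml, one_pow, one_mul]
  rw [Finset.sum_const, Finset.card_range, nsmul_eq_mul]
  have h1 : w ^ (m + 1) * (starRingEnd ℂ) w ^ (l + 1) = 1 := by
    have := (rho_iff h m l).2 hml
    calc w ^ (m + 1) * (starRingEnd ℂ) w ^ (l + 1) =
        (w ^ m * (starRingEnd ℂ) w ^ l) * (w * (starRingEnd ℂ) w) := by ring
      _ = 1 := by rw [this, h.mul_conj, one_mul]
  have h2 := tri_formula h.mul_conj h.im_pos.ne' m l h1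
  have h3 : (((∫ x in (0 : ℝ)..1, x ^ m * ((1 + w * (1 - (x : ℂ))) ^ (l + 1)).im : ℝ)) : ℂ) =
      ∫ x in (0 : ℝ)..1, (x : ℂ) ^ m * ((((1 + w * (1 - (x : ℂ))) ^ (l + 1)).im : ℝ) : ℂ) := by
    rw [← intervalIntegral.integral_ofReal]
    congr 1
    ext x
    push_cast
    ring
  rw [h3, ← h2]
  ring

end

end Run7.h887.BP
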