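import Mathlib
import Pool.Agent.Run7.h887.BP.Bound

/-!
# Sign changes, zeros and interlacing
-/

open Polynomial MeasureTheory

namespace Run7.h887.BP

noncomputable section

theorem fam_succ (w : ℂ) (s0 N n : ℕ) (c : ℕ → ℝ) : fam w s0 N (n + 1) c =
    fam w s0 N n c + C ((c n : ℝ) : ℂ) * ze w ^ (s0 + n * N) := by
  rw [fam, Finset.sum_range_succ, ← fam]

theorem zero_bound' {N : ℕ} {w : ℂ} (h : IsW N w) {s0 : ℕ} (h1 : 1 ≤ s0) (h2 : s0 ≤ N) (n : ℕ) :
    ∀ c : ℕ → ℝ, (∃ i ≤ n, c i ≠ 0) →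
      imP (fam w s0 N (n + 1) c) ≠ 0 ∧ Z (imP (fam w s0 N (n + 1) c)) ≤ n := by
  induction n with
  | zero =>
    rintro c ⟨i, hi, hc⟩
    rw [Nat.le_zero] at hi
    subst hi
    exact zero_bound h h1 h2 0 c hc
  | succ n ih =>
    rintro c ⟨i, hi, hc⟩
    by_cases hn : c (n + 1) = 0
    · have hi' : i ≤ n := by
        rcases Nat.lt_or_ge n i with hlt | hge
        · exfalso
          have : i = n + 1 := by omega
          subst this
          exact hc hn
        · exact hge
      have hf : fam w s0 N (n + 1 + 1) c = fam w s0 N (n + 1) c := by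
        rw [fam_succ, hn]; simp
      rw [hf]
      exact ⟨(ih c ⟨i, hi', hc⟩).1, (ih c ⟨i, hi', hc⟩).2.trans (Nat.le_succ n)⟩
    · exact zero_bound h h1 h2 (n + 1) c hn

theorem imP_fam (w : ℂ) (s0 N n : ℕ) (c : ℕ → ℝ) : imP (fam w s0 N n c) =
    ∑ i ∈ Finset.range n, c i • imP (ze w ^ (s0 + i * N)) := by
  ext m
  rw [imP_coeff, fam, finsetSum_coeff, finsetSum_coeff, Complex.im_sum]
  refine Finset.sum_congr rfl fun i _ => ?_
  rw [coeff_C_mul, Complex.im_ofReal_mul, coeff_smul, imP_coeff, smul_eq_mul]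

theorem exists_div (w : ℂ) (s0 N : ℕ) (M : ℝ[X]) (hM : M.Monic) :
    ∃ c : ℕ → ℝ, (∃ i ≤ M.natDegree, c i ≠ 0) ∧
      M ∣ imP (fam w s0 N (M.natDegree + 1) c) := by
  classical
  set r := M.natDegree with hr
  set L : (Fin (r + 1) → ℝ) →ₗ[ℝ] (Fin r → ℝ) := LinearMap.pi fun j =>
    (Polynomial.lcoeff ℝ (j : ℕ)).comp ((Polynomial.modByMonicHom M).comp
      (Fintype.linearCombination ℝ (fun i : Fin (r + 1) => imP (ze w ^ (s0 + (i : ℕ) * N))))) with hL
  have hker : LinearMap.ker L ≠ ⊥ := by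
    apply LinearMap.ker_ne_bot_of_finrank_lt
    simp
  obtain ⟨c, hc, hc0⟩ := Submodule.exists_mem_ne_zero_of_ne_bot hker
  rw [LinearMap.mem_ker] at hc
  obtain ⟨i, hi⟩ := Function.ne_iff.1 hc0
  refine ⟨fun n => if hn : n < r + 1 then c ⟨n, hn⟩ else 0, ⟨i, by omega, ?_⟩, ?_⟩
  · show (if hn : (i : ℕ) < r + 1 then c ⟨(i : ℕ), hn⟩ else 0) ≠ 0
    rw [dif_pos i.2]
    exact hi
  · have hsum : imP (fam w s0 N (r + 1) (fun n => if hn : n < r + 1 then c ⟨n, hn⟩ else 0)) =
        Fintype.linearCombination ℝ (fun i : Fin (r + 1) => imP (ze w ^ (s0 + (i : ℕ) * N))) c := by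
      rw [imP_fam, Finset.sum_range, Fintype.linearCombination_apply]
      refine Finset.sum_congr rfl fun a _ => ?_
      rw [dif_pos a.2]
    rw [hsum, ← Polynomial.modByMonic_eq_zero_iff_dvd hM]
    ext m
    rw [coeff_zero]
    by_cases hm : m < r
    · have := congrFun hc ⟨m, hm⟩
      simpa [hL] using this
    · apply coeff_eq_zero_of_degree_lt
      refine lt_of_lt_of_le (degree_modByMonic_lt _ hM) ?_
      rw [degree_eq_natDegree hM.ne_zero, ← hr]
      exact_mod_cast not_lt.1 hm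

theorem const_sign {f : ℝ → ℝ} (hf : Continuous f) (h0 : ∀ x ∈ Set.Ioo (0 : ℝ) 1, f x ≠ 0) :
    (∀ x ∈ Set.Ioo (0 : ℝ) 1, 0 < f x) ∨ (∀ x ∈ Set.Ioo (0 : ℝ) 1, f x < 0) := by
  by_contra hcon
  rw [not_or] at hcon
  obtain ⟨h1, h2⟩ := hcon
  push Not at h1 h2
  obtain ⟨a, ha, ha'⟩ := h1
  obtain ⟨b, hb, hb'⟩ := h2
  obtain ⟨c, hc, hc'⟩ := isPreconnected_Ioo.intermediate_value ha hb hf.continuousOn
    (Set.mem_Icc.2 ⟨ha', hb'⟩)
  exact h0 c hc hc'

theorem no_root_of_Z {f : ℝ[X]} (hf : f ≠ 0) (hZ : Z f = 0) {x : ℝ} (hx : x ∈ Set.Ioo (0 : ℝ) 1) :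
    f.eval x ≠ 0 := by
  intro h
  have := Z_pos hf hx h
  omega

theorem Z_prod (Y : Multiset ℝ) (hY : ∀ y ∈ Y, y ∈ Set.Ioo (0 : ℝ) 1) :
    Z (Y.map (fun a => X - C a)).prod = Y.card := by
  classical
  unfold Z
  rw [roots_multiset_prod_X_sub_C, Multiset.filter_eq_self.2 hY]

/-- splitting off the zeros in `(0, 1)` -/
theorem split {R : ℝ[X]} (hR : R ≠ 0) : ∃ (Y : Multiset ℝ) (B : ℝ[X]),
    (∀ y ∈ Y, y ∈ Set.Ioo (0 : ℝ) 1) ∧ R = (Y.map (fun a => X - C a)).prod * B ∧ Y.card = Z R ∧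
      Z B = 0 ∧ B ≠ 0 := by
  classical
  set Y := R.roots.filter (fun x => x ∈ Set.Ioo (0 : ℝ) 1) with hYd
  have hY : ∀ y ∈ Y, y ∈ Set.Ioo (0 : ℝ) 1 := fun y hy => (Multiset.mem_filter.1 hy).2
  have hdvd : (Y.map (fun a => X - C a)).prod ∣ R :=
    (Multiset.prod_dvd_prod_of_le (Multiset.map_le_map (Multiset.filter_le _ _))).trans
      (prod_multiset_X_sub_C_dvd R)
  obtain ⟨B, hB⟩ := hdvd
  have hB0 : B ≠ 0 := by
    rintro rfl
    rw [mul_zero] at hB
    exact hR hB
  have hcard : Y.card = Z R := rfl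
  refine ⟨Y, B, hY, hB, hcard, ?_, hB0⟩
  have h1 : Z R = Z (Y.map (fun a => X - C a)).prod + Z B := by
    conv_lhs => rw [hB]
    exact Z_mul (by rw [← hB]; exact hR)
  rw [Z_prod Y hY] at h1
  omega

theorem Z_le (R : ℝ[X]) : Z R ≤ R.natDegree := by
  classical
  unfold Z
  exact (Multiset.card_le_card (Multiset.filter_le _ _)).trans (card_roots' R)

/-- a combination with the sign of `R (x ^ N)` -/
theorem sgn {N : ℕ} {w : ℂ} (h : IsW N w) {s0 : ℕ} (h1 : 1 ≤ s0) (h2 : s0 ≤ N) {R : ℝ[X]}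
    (hR : R ≠ 0) {n : ℕ} (hn : R.natDegree ≤ n) : ∃ r ≤ n, ∃ c : ℕ → ℝ,
      imP (fam w s0 N (r + 1) c) ≠ 0 ∧ ∀ x ∈ Set.Ioo (0 : ℝ) 1,
        0 ≤ R.eval (x ^ N) * (imP (fam w s0 N (r + 1) c)).eval x := by
  classical
  have hN : N ≠ 0 := by omega
  obtain ⟨Y, B, hY, hRe, hcard, hZB, hB⟩ := split hR
  set X' : Multiset ℝ := Y.map (fun y => y ^ ((N : ℝ)⁻¹)) with hX'
  set M : ℝ[X] := (X'.map (fun a => X - C a)).prod with hMd
  have hM : M.Monic := monic_multiset_prod_of_monic _ _ fun a _ => monic_X_sub_C a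
  have hX'm : ∀ y ∈ X', y ∈ Set.Ioo (0 : ℝ) 1 := by
    intro y hy
    rw [hX', Multiset.mem_map] at hy
    obtain ⟨z, hz, rfl⟩ := hy
    have hz' := hY z hz
    refine ⟨Real.rpow_pos_of_pos hz'.1 _, Real.rpow_lt_one hz'.1.le hz'.2 ?_⟩
    rw [inv_pos]
    exact_mod_cast Nat.pos_of_ne_zero hN
  have hMdeg : M.natDegree = Y.card := by
    rw [hMd, natDegree_multiset_prod_X_sub_C_eq_card, hX', Multiset.card_map]
  obtain ⟨c, hc, g0, hg0⟩ := exists_div w s0 N M hM
  obtain ⟨hne, hZ⟩ := zero_bound' h h1 h2 M.natDegree c hc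
  set g := imP (fam w s0 N (M.natDegree + 1) c) with hg
  have hZg : Z g = Z M + Z g0 := by
    rw [hg0]
    exact Z_mul (by rw [← hg0]; exact hne)
  have hZM : Z M = Y.card := by
    rw [hMd, Z_prod X' hX'm, hX', Multiset.card_map]
  have hZg0 : Z g0 = 0 := by omega
  have hg00 : g0 ≠ 0 := by
    rintro rfl
    rw [mul_zero] at hg0
    exact hne hg0
  have hrn : M.natDegree ≤ n := by
    rw [hMdeg, hcard]
    exact (Z_le R).trans hn
  have hsame : ∀ x ∈ Set.Ioo (0 : ℝ) 1,
      0 ≤ ((Y.map (fun a => X - C a)).prod.eval (x ^ N)) * M.eval x := by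
    intro x hx
    rw [hMd, hX', Multiset.map_map, eval_multiset_prod, eval_multiset_prod, Multiset.map_map,
      Multiset.map_map, ← Multiset.prod_map_mul]
    apply Multiset.prod_nonneg
    intro a ha
    rw [Multiset.mem_map] at ha
    obtain ⟨y, hy, rfl⟩ := ha
    have hy' := hY y hy
    simp only [Function.comp_apply, eval_sub, eval_X, eval_C]
    set u : ℝ := y ^ ((N : ℝ)⁻¹) with hu
    have hu0 : 0 < u := Real.rpow_pos_of_pos hy'.1 _
    have huN : u ^ N = y := by
      rw [hu]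
      exact Real.rpow_inv_natCast_pow hy'.1.le hN
    rw [← huN]
    rcases le_total u x with hle | hle
    · exact mul_nonneg (sub_nonneg.2 (pow_le_pow_left₀ hu0.le hle N)) (sub_nonneg.2 hle)
    · exact mul_nonneg_of_nonpos_of_nonpos (sub_nonpos.2 (pow_le_pow_left₀ hx.1.le hle N))
        (sub_nonpos.2 hle)
  have hpow : ∀ x ∈ Set.Ioo (0 : ℝ) 1, x ^ N ∈ Set.Ioo (0 : ℝ) 1 := fun x hx =>
    ⟨pow_pos hx.1 N, pow_lt_one₀ hx.1.le hx.2 hN⟩
  have hcs := const_sign (f := fun x => B.eval (x ^ N) * g0.eval x)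
    ((B.continuous.comp (continuous_pow N)).mul g0.continuous)
    (fun x hx => mul_ne_zero (no_root_of_Z hB hZB (hpow x hx)) (no_root_of_Z hg00 hZg0 hx))
  have key : ∀ x, R.eval (x ^ N) * g.eval x =
      (((Y.map (fun a => X - C a)).prod.eval (x ^ N)) * M.eval x) *
        (B.eval (x ^ N) * g0.eval x) := by
    intro x
    rw [hg0, hRe, eval_mul, eval_mul]
    ring
  rcases hcs with hp | hneg
  · refine ⟨M.natDegree, hrn, c, hne, fun x hx => ?_⟩
    rw [key]
    exact mul_nonneg (hsame x hx) (hp x hx).le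
  · have hneg' : imP (fam w s0 N (M.natDegree + 1) (fun i => -c i)) = -g := by
      rw [hg, imP_fam, imP_fam, ← Finset.sum_neg_distrib]
      refine Finset.sum_congr rfl fun i _ => ?_
      rw [neg_smul]
    refine ⟨M.natDegree, hrn, fun i => -c i, ?_, fun x hx => ?_⟩
    · rw [hneg']
      exact neg_ne_zero.2 hne
    · rw [hneg', eval_neg, mul_neg, key, ← mul_neg]
      exact mul_nonneg (hsame x hx) (neg_nonneg.2 (hneg x hx).le)

/-- orthogonality to the first `m` functions -/
def Orth (N k : ℕ) (w : ℂ) (m : ℕ) (R : ℝ[X]) : Prop :=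
  ∀ i < m, ∫ x in (0 : ℝ)..1, x ^ k * R.eval (x ^ N) *
    ((1 + w * (1 - (x : ℂ))) ^ (k + 1 + i * N)).im = 0

theorem not_orth {N : ℕ} {w : ℂ} (h : IsW N w) {k : ℕ} (hk : k < N) {A R : ℝ[X]}
    (hA : A ≠ 0) (hR : R ≠ 0) {n : ℕ} (hn : R.natDegree ≤ n)
    (hA0 : ∀ y ∈ Set.Ioo (0 : ℝ) 1, 0 ≤ A.eval y) (ho : Orth N k w (n + 1) (A * R)) : False := by
  classical
  have hN : N ≠ 0 := by omega
  obtain ⟨r, hr, c, hg, hs⟩ := sgn h (s0 := k + 1) (by omega) (by omega) hR hn
  set g := imP (fam w (k + 1) N (r + 1) c) with hgd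
  set W : ℝ[X] := X ^ k * (expand ℝ N A * expand ℝ N R) * g with hW
  have hWne : W ≠ 0 := by
    rw [hW]
    refine mul_ne_zero (mul_ne_zero (pow_ne_zero _ X_ne_zero) (mul_ne_zero ?_ ?_)) hg
    · exact (expand_ne_zero (Nat.pos_of_ne_zero hN)).2 hA
    · exact (expand_ne_zero (Nat.pos_of_ne_zero hN)).2 hR
  have hpow : ∀ x ∈ Set.Ioo (0 : ℝ) 1, x ^ N ∈ Set.Ioo (0 : ℝ) 1 := fun x hx =>
    ⟨pow_pos hx.1 N, pow_lt_one₀ hx.1.le hx.2 hN⟩
  have hWe : ∀ x : ℝ, W.eval x = x ^ k * (A.eval (x ^ N) * R.eval (x ^ N)) * g.eval x := by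
    intro x
    rw [hW, eval_mul, eval_mul, eval_mul, eval_pow, eval_X, expand_eval, expand_eval]
  have hnn : ∀ x ∈ Set.Ioo (0 : ℝ) 1, 0 ≤ W.eval x := by
    intro x hx
    rw [hWe]
    have : x ^ k * (A.eval (x ^ N) * R.eval (x ^ N)) * g.eval x =
        x ^ k * (A.eval (x ^ N) * (R.eval (x ^ N) * g.eval x)) := by ring
    rw [this]
    exact mul_nonneg (pow_nonneg hx.1.le k) (mul_nonneg (hA0 _ (hpow x hx)) (hs x hx))
  have hnn' : ∀ x ∈ Set.Icc (0 : ℝ) 1, 0 ≤ W.eval x := by
    intro x hx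
    have hcl : x ∈ closure (Set.Ioo (0 : ℝ) 1) := by
      rw [closure_Ioo (by norm_num)]; exact hx
    exact closure_minimal (s := Set.Ioo (0 : ℝ) 1) (t := {x | 0 ≤ W.eval x}) hnn
      (isClosed_le continuous_const W.continuous) hcl
  have hint : ∫ x in (0 : ℝ)..1, W.eval x = 0 := by
    have h1 : ∀ x : ℝ, W.eval x = ∑ i ∈ Finset.range (r + 1), c i *
        (x ^ k * (A * R).eval (x ^ N) * ((1 + w * (1 - (x : ℂ))) ^ (k + 1 + i * N)).im) := by
      intro x
      rw [hWe, hgd, ev0, Finset.mul_sum]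
      refine Finset.sum_congr rfl fun i _ => ?_
      rw [eval_mul]
      ring
    simp_rw [h1]
    rw [intervalIntegral.integral_finsetSum]
    · refine Finset.sum_eq_zero fun i hi => ?_
      rw [intervalIntegral.integral_const_mul, ho i (by
        have := Finset.mem_range.1 hi
        omega), mul_zero]
    · intro i _
      apply Continuous.intervalIntegrable
      have hc1 : Continuous fun x : ℝ => (A * R).eval (x ^ N) :=
        (A * R).continuous.comp (continuous_pow N)
      have hc2 : Continuous fun x : ℝ => ((1 + w * (1 - (x : ℂ))) ^ (k + 1 + i * N)).im := by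
        fun_prop
      fun_prop
  have hz : ∀ x ∈ Set.Ioo (0 : ℝ) 1, W.eval x = 0 := by
    intro x hx
    by_contra hne
    have hpos : 0 < ∫ x in (0 : ℝ)..1, W.eval x :=
      intervalIntegral.integral_pos (by norm_num) W.continuous.continuousOn
        (fun y hy => hnn' y ⟨hy.1.le, hy.2⟩)
        ⟨x, ⟨hx.1.le, hx.2.le⟩, lt_of_le_of_ne (hnn x hx) (Ne.symm hne)⟩
    rw [hint] at hpos
    exact lt_irrefl _ hpos
  apply hWne
  apply Polynomial.eq_zero_of_infinite_isRoot
  exact (Set.Ioo_infinite (show (0 : ℝ) < 1 by norm_num)).mono fun x hx => hz x hx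

theorem Orth.mono {N k : ℕ} {w : ℂ} {m m' : ℕ} {R : ℝ[X]} (h : Orth N k w m R) (hm : m' ≤ m) :
    Orth N k w m' R := fun i hi => h i (lt_of_lt_of_le hi hm)

theorem many_zeros {N : ℕ} {w : ℂ} (h : IsW N w) {k : ℕ} (hk : k < N) {Q : ℝ[X]} (hQ : Q ≠ 0)
    {m : ℕ} (ho : Orth N k w m Q) : m ≤ Z Q := by
  by_contra hlt
  rw [not_le] at hlt
  obtain ⟨Y, B, hY, hRe, hcard, hZB, hB⟩ := split hQ
  set P := (Y.map (fun a => X - C a)).prod with hP
  have hPm : P.Monic := monic_multiset_prod_of_monic _ _ fun a _ => monic_X_sub_C a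
  have hPd : P.natDegree ≤ m - 1 := by
    rw [hP, natDegree_multiset_prod_X_sub_C_eq_card, hcard]
    omega
  have hm : m - 1 + 1 = m := by omega
  have hcs := const_sign (f := fun x => B.eval x) B.continuous
    (fun x hx => no_root_of_Z hB hZB hx)
  rcases hcs with hp | hneg
  · refine not_orth h hk hB hPm.ne_zero hPd (fun y hy => (hp y hy).le) ?_
    rw [hm, mul_comm, ← hRe]
    exact ho
  · refine not_orth h hk (neg_ne_zero.2 hB) hPm.ne_zero hPd (fun y hy => ?_) ?_
    · rw [eval_neg]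
      exact neg_nonneg.2 (hneg y hy).le
    · rw [hm]
      have : -B * P = -Q := by rw [hRe]; ring
      rw [this]
      intro i hi
      have := ho i hi
      simp only [eval_neg, mul_neg, neg_mul]
      rw [intervalIntegral.integral_neg, this, neg_zero]

theorem no_double {N : ℕ} {w : ℂ} (h : IsW N w) {k : ℕ} (hk : k < N) {Q : ℝ[X]} (hQ : Q ≠ 0)
    {m : ℕ} (ho : Orth N k w m Q) (hd : Q.natDegree ≤ m + 1) (a : ℝ) (ha : Q.eval a = 0)
    (ha' : (derivative Q).eval a = 0) : False := by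
  obtain ⟨Q1, hQ1⟩ := dvd_iff_isRoot.2 (show Q.IsRoot a from ha)
  have h1 : Q1.eval a = 0 := by
    have : derivative Q = Q1 + (X - C a) * derivative Q1 := by
      rw [hQ1, derivative_mul, derivative_X_sub_C, one_mul]
    rw [this, eval_add, eval_mul, eval_sub, eval_X, eval_C, sub_self, zero_mul, add_zero] at ha'
    exact ha'
  obtain ⟨Q2, hQ2⟩ := dvd_iff_isRoot.2 (show Q1.IsRoot a from h1)
  have hQ3 : Q = (X - C a) ^ 2 * Q2 := by rw [hQ1, hQ2]; ring
  have hQ20 : Q2 ≠ 0 := by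
    rintro rfl
    rw [mul_zero] at hQ3
    exact hQ hQ3
  have hdeg : Q.natDegree = 2 + Q2.natDegree := by
    rw [hQ3, natDegree_mul (pow_ne_zero _ (X_sub_C_ne_zero a)) hQ20, natDegree_pow,
      natDegree_X_sub_C]
  have hm : m - 1 + 1 = m := by omega
  refine not_orth h hk (A := (X - C a) ^ 2) (R := Q2) (n := m - 1)
    (pow_ne_zero _ (X_sub_C_ne_zero a)) hQ20 (by omega) (fun y _ => ?_) ?_
  · rw [eval_pow]
    positivity
  · rw [hm, ← hQ3]
    exact ho

/-- **Zeros and interlacing.** -/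
theorem poly_main {N : ℕ} {w : ℂ} (h : IsW N w) {k : ℕ} (hk : k < N) {j : ℕ} (q Q : ℝ[X])
    (hq : q.Monic) (hqd : q.natDegree = j) (hQ : Q.Monic) (hQd : Q.natDegree = j + 1)
    (oq : Orth N k w j q) (oQ : Orth N k w (j + 1) Q) :
    ∃ t s : ℕ → ℝ, q = ∏ ν ∈ Finset.range j, (X - C (t ν)) ∧
      Q = ∏ ν ∈ Finset.range (j + 1), (X - C (s ν)) ∧ 0 < s 0 ∧ s j < 1 ∧
      ∀ ν, ν < j → s ν < t ν ∧ t ν < s (ν + 1) := by
  classical
  have oQ' : Orth N k w j Q := oQ.mono (Nat.le_succ j)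
  -- combinations
  have comb : ∀ a b : ℝ, (a ≠ 0 ∨ b ≠ 0) → ∀ y : ℝ, a * Q.eval y + b * q.eval y = 0 →
      a * (derivative Q).eval y + b * (derivative q).eval y = 0 → False := by
    intro a b hab y h1 h2
    set R : ℝ[X] := C a * Q + C b * q with hR
    have hR0 : R ≠ 0 := by
      intro h0
      have hc1 : R.coeff (j + 1) = a := by
        have e1 : Q.coeff (j + 1) = 1 := by
          rw [← hQd]
          exact hQ
        have e2 : q.coeff (j + 1) = 0 := coeff_eq_zero_of_natDegree_lt (by omega)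
        rw [hR, coeff_add, coeff_C_mul, coeff_C_mul, e1, e2]
        ring
      rw [h0, coeff_zero] at hc1
      have hc2 : R.coeff j = b := by
        rw [hR, ← hc1, C_0, zero_mul, zero_add, coeff_C_mul, ← hqd,
          show q.coeff q.natDegree = 1 from hq, mul_one]
      rw [h0, coeff_zero] at hc2
      rcases hab with hab | hab
      · exact hab hc1.symm
      · exact hab hc2.symm
    have hRd : R.natDegree ≤ j + 1 := by
      rw [hR]
      refine (natDegree_add_le _ _).trans (max_le ?_ ?_)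
      · exact (natDegree_C_mul_le _ _).trans hQd.le
      · exact (natDegree_C_mul_le _ _).trans (by omega)
    have hRo : Orth N k w j R := by
      intro i hi
      have e : ∀ x : ℝ, x ^ k * R.eval (x ^ N) * ((1 + w * (1 - (x : ℂ))) ^ (k + 1 + i * N)).im =
          a * (x ^ k * Q.eval (x ^ N) * ((1 + w * (1 - (x : ℂ))) ^ (k + 1 + i * N)).im) +
          b * (x ^ k * q.eval (x ^ N) * ((1 + w * (1 - (x : ℂ))) ^ (k + 1 + i * N)).im) := by
        intro x
        rw [hR, eval_add, eval_mul, eval_mul, eval_C, eval_C]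
        ring
      simp_rw [e]
      have hc : ∀ T : ℝ[X], Continuous fun x : ℝ =>
          x ^ k * T.eval (x ^ N) * ((1 + w * (1 - (x : ℂ))) ^ (k + 1 + i * N)).im := by
        intro T
        have hc1 : Continuous fun x : ℝ => T.eval (x ^ N) := T.continuous.comp (continuous_pow N)
        have hc2 : Continuous fun x : ℝ => ((1 + w * (1 - (x : ℂ))) ^ (k + 1 + i * N)).im := by
          fun_prop
        fun_prop
      rw [intervalIntegral.integral_add, intervalIntegral.integral_const_mul,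
        intervalIntegral.integral_const_mul, oQ' i hi, oq i hi, mul_zero, mul_zero, add_zero]
      · exact (continuous_const.mul (hc Q)).intervalIntegrable _ _
      · exact (continuous_const.mul (hc q)).intervalIntegrable _ _
    refine no_double h hk hR0 hRo hRd y ?_ ?_
    · rw [hR, eval_add, eval_mul, eval_mul, eval_C, eval_C]; exact h1
    · rw [hR, derivative_add, derivative_C_mul, derivative_C_mul, eval_add, eval_mul, eval_mul,
        eval_C, eval_C]
      exact h2
  have Wne : ∀ y : ℝ, (derivative Q).eval y * q.eval y - Q.eval y * (derivative q).eval y ≠ 0 := by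
    intro y hW
    by_cases h1 : q.eval y ≠ 0 ∨ Q.eval y ≠ 0
    · refine comb (q.eval y) (-Q.eval y) ?_ y (by ring) (by linarith)
      rcases h1 with h1 | h1
      · exact Or.inl h1
      · exact Or.inr (neg_ne_zero.2 h1)
    · push Not at h1
      by_cases h2 : (derivative q).eval y ≠ 0 ∨ (derivative Q).eval y ≠ 0
      · refine comb ((derivative q).eval y) (-(derivative Q).eval y) ?_ y
          (by rw [h1.1, h1.2]; ring) (by ring)
        rcases h2 with h2 | h2
        · exact Or.inl h2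
        · exact Or.inr (neg_ne_zero.2 h2)
      · push Not at h2
        exact comb 1 0 (Or.inl one_ne_zero) y (by rw [h1.2]; ring) (by rw [h2.2]; ring)
  -- between two roots of `Q` there is a root of `q`
  have btw : ∀ a b : ℝ, a < b → Q.eval a = 0 → Q.eval b = 0 → ∃ y, a < y ∧ y < b ∧
      q.eval y = 0 := by
    intro a b hab ha hb
    by_contra hcon
    push Not at hcon
    have hqa : q.eval a ≠ 0 := by
      intro h0
      apply Wne a
      rw [h0, ha]; ring
    have hqb : q.eval b ≠ 0 := by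
      intro h0
      apply Wne b
      rw [h0, hb]; ring
    have hq0 : ∀ y ∈ Set.Icc a b, q.eval y ≠ 0 := by
      intro y hy
      rcases hy.1.lt_or_eq with h1 | rfl
      · rcases hy.2.lt_or_eq with h2 | rfl
        · exact hcon y h1 h2
        · exact hqb
      · exact hqa
    obtain ⟨z, hz, hz'⟩ := exists_hasDerivAt_eq_zero (f := fun y => Q.eval y / q.eval y)
      (f' := fun y => ((derivative Q).eval y * q.eval y - Q.eval y * (derivative q).eval y) /
        (q.eval y) ^ 2) hab (Q.continuous.continuousOn.div q.continuous.continuousOn hq0)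
      (by simp only [ha, hb, zero_div])
      (fun y hy => (Q.hasDerivAt y).div (q.hasDerivAt y) (hq0 y ⟨hy.1.le, hy.2.le⟩))
    rw [div_eq_zero_iff] at hz'
    rcases hz' with h0 | h0
    · exact Wne z h0
    · exact hq0 z ⟨hz.1.le, hz.2.le⟩ (pow_eq_zero_iff (two_ne_zero) |>.1 h0)
  -- the roots of `Q`
  have hZQ : j + 1 ≤ Z Q := many_zeros h hk hQ.ne_zero oQ
  have hcardQ : Q.roots.card = j + 1 := by
    have h1 : Z Q ≤ Q.roots.card := Multiset.card_le_card (Multiset.filter_le _ _)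
    have h2 := card_roots' Q
    omega
  have hfilt : Q.roots.filter (fun x => x ∈ Set.Ioo (0 : ℝ) 1) = Q.roots := by
    apply Multiset.eq_of_le_of_card_le (Multiset.filter_le _ _)
    rw [hcardQ]
    convert hZQ using 1
    unfold Z
    congr!
  have hin : ∀ y ∈ Q.roots, y ∈ Set.Ioo (0 : ℝ) 1 := fun y hy => by
    rw [← hfilt] at hy
    exact (Multiset.mem_filter.1 hy).2
  have hnd : Q.roots.Nodup := by
    rw [Multiset.nodup_iff_count_le_one]
    intro a
    rw [count_roots]
    by_contra hgt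
    rw [not_le] at hgt
    have h1 := (one_lt_rootMultiplicity_iff_isRoot hQ.ne_zero).1 hgt
    refine comb 1 0 (Or.inl one_ne_zero) a ?_ ?_
    · rw [show Q.eval a = 0 from h1.1]; ring
    · rw [show (derivative Q).eval a = 0 from h1.2]; ring
  have hfin : Q.roots.toFinset.card = j + 1 := by
    rw [Multiset.toFinset_card_of_nodup hnd, hcardQ]
  set s0 := Q.roots.toFinset.orderEmbOfFin hfin with hs0
  set s : ℕ → ℝ := fun n => if hn : n < j + 1 then s0 ⟨n, hn⟩ else 0 with hs
  have hsv : ∀ n (hn : n < j + 1), s n = s0 ⟨n, hn⟩ := fun n hn => by rw [hs]; exact dif_pos hn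
  have hsroot : ∀ n, n < j + 1 → s n ∈ Q.roots := by
    intro n hn
    rw [hsv n hn]
    exact Multiset.mem_toFinset.1 (Finset.orderEmbOfFin_mem _ hfin _)
  have hsmono : ∀ n, n < j → s n < s (n + 1) := by
    intro n hn
    rw [hsv n (by omega), hsv (n + 1) (by omega)]
    exact s0.strictMono (by rw [Fin.lt_def]; exact Nat.lt_succ_self n)
  have hQprod : Q = ∏ ν ∈ Finset.range (j + 1), (X - C (s ν)) := by
    have h1 : Q = (Q.roots.map (fun a => X - C a)).prod := by
      have := prod_multiset_X_sub_C_of_monic_of_roots_card_eq hQ (by rw [hcardQ, hQd])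
      exact this.symm
    have h2 : (Q.roots.map (fun a => X - C a)).prod = ∏ a ∈ Q.roots.toFinset, (X - C a) := by
      rw [Finset.prod_multiset_map_count]
      refine Finset.prod_congr rfl fun a ha => ?_
      rw [Multiset.count_eq_one_of_mem hnd (Multiset.mem_toFinset.1 ha), pow_one]
    rw [h1, h2, Finset.prod_range]
    have h3 : Q.roots.toFinset = Finset.univ.image s0 := by
      rw [hs0, Finset.image_orderEmbOfFin_univ]
    rw [h3, Finset.prod_image (fun a _ b _ hab => s0.injective hab)]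
    refine Finset.prod_congr rfl fun a _ => ?_
    rw [hsv a a.2]
  -- the roots of `q`
  have ht : ∀ n, n < j → ∃ y, s n < y ∧ y < s (n + 1) ∧ q.eval y = 0 := by
    intro n hn
    exact btw _ _ (hsmono n hn) (isRoot_of_mem_roots (hsroot n (by omega)))
      (isRoot_of_mem_roots (hsroot (n + 1) (by omega)))
  choose! t ht1 ht2 ht3 using ht
  have htmono : ∀ a b, a < b → b < j → t a < t b := by
    intro a b hab hb
    have hs' : ∀ d, a + 1 + d < j + 1 → s (a + 1) ≤ s (a + 1 + d) := by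
      intro d
      induction d with
      | zero => intro _; exact le_refl _
      | succ d ih =>
        intro hd
        exact (ih (by omega)).trans (hsmono (a + 1 + d) (by omega)).le
    have h2 := hs' (b - (a + 1)) (by omega)
    have e : a + 1 + (b - (a + 1)) = b := by omega
    rw [e] at h2
    exact (ht2 a (by omega)).trans_le (h2.trans (ht1 b hb).le)
  have htinj : Set.InjOn t (Finset.range j : Finset ℕ) := by
    intro a ha b hb hab
    rw [Finset.coe_range, Set.mem_Iio] at ha hb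
    rcases lt_trichotomy a b with hlt | heq | hgt
    · exact absurd hab (htmono a b hlt hb).ne
    · exact heq
    · exact absurd hab (htmono b a hgt ha).ne'
  have hqprod : q = ∏ ν ∈ Finset.range j, (X - C (t ν)) := by
    have hdvd : ∏ ν ∈ Finset.range j, (X - C (t ν)) ∣ q := by
      apply Finset.prod_dvd_of_coprime
      · intro a ha b hb hab
        apply pairwise_coprime_X_sub_C (K := ℝ) (s := fun x : ℝ => x) (fun _ _ h => h)
        intro h0
        exact hab (htinj ha hb h0)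
      · intro a ha
        exact dvd_iff_isRoot.2 (ht3 a (Finset.mem_range.1 ha))
    have hmon : (∏ ν ∈ Finset.range j, (X - C (t ν))).Monic :=
      monic_prod_of_monic _ _ fun a _ => monic_X_sub_C _
    have hdeg : (∏ ν ∈ Finset.range j, (X - C (t ν))).natDegree = j := by
      rw [natDegree_prod_of_monic _ _ fun a _ => monic_X_sub_C _]
      simp
    exact eq_of_monic_of_dvd_of_natDegree_le hmon hq hdvd (by rw [hdeg, hqd])
  refine ⟨t, s, hqprod, hQprod, (hin _ (hsroot 0 (by omega))).1, (hin _ (hsroot j (by omega))).2,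
    fun ν hν => ⟨ht1 ν hν, ht2 ν hν⟩⟩

end

end Run7.h887.BP
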