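import Mathlib
import Pool.Agent.Run7.h887.BP.Geo
import Pool.Agent.Run7.h887.BP.Sgn

/-!
# Bergman orthogonal polynomials of the regular triangle and of the square
-/

open MeasureTheory Polynomial

namespace Run7.h887.BP

noncomputable section

/-- the polygon -/
def PG (N : ℕ) : Set ℂ := interior (convexHull ℝ {z : ℂ | z ^ N = 1})

theorem PG_int {N : ℕ} (hN : N ≠ 0) {f : ℂ → ℂ} (hf : Continuous f) : IntegrableOn f (PG N) :=
  (hf.continuousOn.integrableOn_compact (isCompact_closedBall 0 1)).mono_set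
    (interior_subset.trans (KK_ball hN))

/-- the moments -/
def MO (N m l : ℕ) : ℂ := ∫ z in PG N, z ^ m * (starRingEnd ℂ) z ^ l

/-- the real value of the moments -/
def MR (N : ℕ) (w : ℂ) (m l : ℕ) : ℝ := if m % N = l % N then
  N / ((l : ℝ) + 1) * ∫ x in (0 : ℝ)..1, x ^ m * ((1 + w * (1 - (x : ℂ))) ^ (l + 1)).im else 0

theorem MO_eq {N : ℕ} {w : ℂ} (h : IsW N w) (m l : ℕ) : MO N m l = (MR N w m l : ℂ) := by
  unfold MR
  split_ifs with hml
  · have h1 := moment_eq h hml
    have hl : ((l : ℂ) + 1) ≠ 0 := by exact_mod_cast Nat.succ_ne_zero l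
    have h2 : ((l : ℂ) + 1) * MO N m l = N * (((∫ x in (0 : ℝ)..1,
      x ^ m * ((1 + w * (1 - (x : ℂ))) ^ (l + 1)).im : ℝ)) : ℂ) := h1
    rw [Complex.ofReal_mul, Complex.ofReal_div, Complex.ofReal_add, Complex.ofReal_natCast,
      Complex.ofReal_natCast, Complex.ofReal_one, div_mul_eq_mul_div, ← h2]
    field_simp
  · rw [Complex.ofReal_zero]
    exact moment_ne h hml

theorem int_poly {N : ℕ} (hN : N ≠ 0) (p : ℂ[X]) (l : ℕ) (n : ℕ) (hn : p.natDegree < n) :
    ∫ z in PG N, p.eval z * (starRingEnd ℂ) z ^ l = ∑ m ∈ Finset.range n, p.coeff m * MO N m l := by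
  have h1 : ∀ z : ℂ, p.eval z * (starRingEnd ℂ) z ^ l =
      ∑ m ∈ Finset.range n, p.coeff m * (z ^ m * (starRingEnd ℂ) z ^ l) := by
    intro z
    rw [eval_eq_sum_range' hn, Finset.sum_mul]
    refine Finset.sum_congr rfl fun m _ => ?_
    ring
  simp_rw [h1]
  rw [integral_finsetSum]
  · refine Finset.sum_congr rfl fun m _ => ?_
    rw [integral_const_mul]
    rfl
  · intro m _
    exact PG_int hN (by fun_prop)

theorem orth_all {N : ℕ} (hN : N ≠ 0) (p : ℂ[X]) (M : ℕ)
    (ho : ∀ l < M, ∫ z in PG N, p.eval z * (starRingEnd ℂ) z ^ l = 0) (r : ℂ[X])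
    (hr : r.natDegree < M) : ∫ z in PG N, p.eval z * (starRingEnd ℂ) (r.eval z) = 0 := by
  have h1 : ∀ z : ℂ, p.eval z * (starRingEnd ℂ) (r.eval z) =
      ∑ l ∈ Finset.range M, (starRingEnd ℂ) (r.coeff l) * (p.eval z * (starRingEnd ℂ) z ^ l) := by
    intro z
    rw [eval_eq_sum_range' hr, map_sum, Finset.mul_sum]
    refine Finset.sum_congr rfl fun m _ => ?_
    rw [map_mul, map_pow]
    ring
  simp_rw [h1]
  rw [integral_finsetSum]
  · refine Finset.sum_eq_zero fun l hl => ?_
    rw [integral_const_mul, ho l (Finset.mem_range.1 hl), mul_zero]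
  · intro l _
    apply Integrable.const_mul
    exact PG_int hN (p.continuous.mul (Complex.continuous_conj.pow l))

theorem PG_nonempty {N : ℕ} {w : ℂ} (h : IsW N w) : (PG N).Nonempty := by
  have hS := h.im_pos.ne'
  set U : Set ℂ := {z | 0 < X0 w z ∧ 0 < Y0 w z ∧ X0 w z + Y0 w z < 1} with hU
  have hUo : IsOpen U := by
    rw [hU]
    refine (isOpen_lt continuous_const (X0_cont w)).inter
      ((isOpen_lt continuous_const (Y0_cont w)).inter
        (isOpen_lt ((X0_cont w).add (Y0_cont w)) continuous_const))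
  have hsub : U ⊆ KK N := by
    intro z hz
    have hz' : z ∈ Tk w 0 := by
      show (starRingEnd ℂ) w ^ 0 * z ∈ TT w
      rw [pow_zero, one_mul]
      exact ⟨hz.1, hz.2.1.le, hz.2.2.le⟩
    exact (Tk_sub h 0 hz').1
  refine ⟨((1 / 4 : ℝ) : ℂ) + w * ((1 / 4 : ℝ) : ℂ), ?_⟩
  apply interior_maximal hsub hUo
  rw [hU, Set.mem_ofPred_eq, X0_mk hS, Y0_mk hS]
  norm_num

theorem poly_zero {N : ℕ} {w : ℂ} (h : IsW N w) (D : ℂ[X])
    (hD : ∫ z in PG N, D.eval z * (starRingEnd ℂ) (D.eval z) = 0) : D = 0 := by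
  have hN : N ≠ 0 := by rcases h with ⟨h, _⟩ | ⟨h, _⟩ <;> omega
  have hopen : IsOpen (PG N) := isOpen_interior
  have h1 : ∀ z : ℂ, D.eval z * (starRingEnd ℂ) (D.eval z) = ((Complex.normSq (D.eval z) : ℝ) : ℂ) :=
    fun z => Complex.mul_conj _
  simp_rw [h1] at hD
  rw [integral_complex_ofReal, Complex.ofReal_eq_zero] at hD
  have hcont : Continuous fun z : ℂ => Complex.normSq (D.eval z) :=
    Complex.continuous_normSq.comp D.continuous
  have hint : IntegrableOn (fun z : ℂ => Complex.normSq (D.eval z)) (PG N) :=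
    (hcont.continuousOn.integrableOn_compact (isCompact_closedBall 0 1)).mono_set
      (interior_subset.trans (KK_ball hN))
  have hae := (integral_eq_zero_iff_of_nonneg (fun z => Complex.normSq_nonneg _) hint).1 hD
  have heq : Set.EqOn (fun z : ℂ => Complex.normSq (D.eval z)) 0 (PG N) :=
    Measure.eqOn_open_of_ae_eq hae hopen hcont.continuousOn continuousOn_const
  apply Polynomial.eq_zero_of_infinite_isRoot
  obtain ⟨z0, hz0⟩ := PG_nonempty h
  refine (infinite_of_mem_nhds z0 (hopen.mem_nhds hz0)).mono fun z hz => ?_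
  have := heq hz
  exact Complex.normSq_eq_zero.1 this

theorem reduce {N : ℕ} {w : ℂ} (h : IsW N w) {k : ℕ} (hk : k < N) {j : ℕ} (p : ℂ[X])
    (hp : p.Monic) (hd : p.natDegree = j * N + k)
    (ho : ∀ r : ℂ[X], r.natDegree < j * N + k →
      ∫ z in PG N, p.eval z * (starRingEnd ℂ) (r.eval z) = 0) :
    ∃ q : ℝ[X], q.Monic ∧ q.natDegree = j ∧
      p = X ^ k * (q.map (algebraMap ℝ ℂ)).comp (X ^ N) ∧ Orth N k w j q := by
  classical
  have hN : N ≠ 0 := by omega
  set M := j * N + k with hM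
  set q : ℝ[X] := ∑ i ∈ Finset.range (j + 1), C ((p.coeff (k + i * N)).re) * X ^ i with hq
  have hqc : ∀ i, q.coeff i = if i < j + 1 then (p.coeff (k + i * N)).re else 0 := by
    intro i
    rw [hq]
    simp only [finsetSum_coeff, coeff_C_mul_X_pow]
    rw [Finset.sum_ite_eq (Finset.range (j + 1)) i]
    simp only [Finset.mem_range]
  have hqd : q.natDegree ≤ j := by
    rw [natDegree_le_iff_coeff_eq_zero]
    intro n hn
    rw [hqc, if_neg (by omega)]
  have hq1 : q.coeff j = 1 := by
    rw [hqc, if_pos (by omega), add_comm, ← hM, ← hd, show p.coeff p.natDegree = 1 from hp]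
    rfl
  have hqm : q.Monic := monic_of_natDegree_le_of_coeff_eq_one j hqd hq1
  have hqdeg : q.natDegree = j := natDegree_eq_of_le_of_coeff_ne_zero hqd (by rw [hq1]; norm_num)
  set P : ℂ[X] := X ^ k * (q.map (algebraMap ℝ ℂ)).comp (X ^ N) with hP
  have hPe : P = ∑ i ∈ Finset.range (j + 1), C (((p.coeff (k + i * N)).re : ℝ) : ℂ) *
      X ^ (k + i * N) := by
    rw [hP, hq, Polynomial.map_sum, Polynomial.sum_comp, Finset.mul_sum]
    refine Finset.sum_congr rfl fun i _ => ?_
    rw [Polynomial.map_mul, Polynomial.map_C, Polynomial.map_pow, Polynomial.map_X, mul_comp,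
      C_comp, X_pow_comp, pow_add, mul_comm i N, pow_mul]
    simp only [Complex.coe_algebraMap]
    ring
  -- relations for the coefficients
  have hrel : ∀ l < M, ∑ m ∈ Finset.range (M + 1), (p.coeff m).re * MR N w m l = 0 := by
    intro l hl
    have h1 := ho (X ^ l) (by rw [natDegree_X_pow]; exact hl)
    simp only [eval_pow, eval_X, map_pow] at h1
    rw [int_poly hN p l (M + 1) (by omega)] at h1
    have h2 := congrArg Complex.re h1
    rw [Complex.re_sum, Complex.zero_re] at h2
    rw [← h2]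
    refine Finset.sum_congr rfl fun m _ => ?_
    rw [MO_eq h, Complex.re_mul_ofReal]
  have hrel2 : ∀ l < M, ∑ i ∈ Finset.range (j + 1),
      (p.coeff (k + i * N)).re * MR N w (k + i * N) l = 0 := by
    intro l hl
    by_cases hlk : l % N = k
    · rw [← hrel l hl]
      have hinj : Set.InjOn (fun i => k + i * N) (Finset.range (j + 1) : Finset ℕ) := by
        intro a _ b _ hab
        simp only at hab
        exact Nat.eq_of_mul_eq_mul_right (Nat.pos_of_ne_zero hN) (by omega)
      rw [← Finset.sum_image (f := fun m => (p.coeff m).re * MR N w m l) hinj]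
      apply Finset.sum_subset
      · intro m hm
        rw [Finset.mem_image] at hm
        obtain ⟨i, hi, rfl⟩ := hm
        rw [Finset.mem_range] at hi ⊢
        have : i * N ≤ j * N := Nat.mul_le_mul_right N (by omega)
        omega
      · intro m hm hm2
        have hne : m % N ≠ l % N := by
          intro he
          apply hm2
          rw [Finset.mem_image]
          refine ⟨m / N, ?_, ?_⟩
          · rw [Finset.mem_range] at hm ⊢
            rw [Nat.lt_succ_iff]
            have h3 : m < (j + 1) * N := by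
              have : (j + 1) * N = j * N + N := by ring
              omega
            exact Nat.lt_succ_iff.1 ((Nat.div_lt_iff_lt_mul (Nat.pos_of_ne_zero hN)).2 h3)
          · have h3 := Nat.mod_add_div m N
            have h4 : m / N * N = N * (m / N) := mul_comm _ _
            show k + m / N * N = m
            omega
        unfold MR
        rw [if_neg hne, mul_zero]
    · refine Finset.sum_eq_zero fun i _ => ?_
      unfold MR
      rw [if_neg, mul_zero]
      rw [Nat.add_mul_mod_self_right, Nat.mod_eq_of_lt hk]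
      exact fun h => hlk h.symm
  have hPo : ∀ l < M, ∫ z in PG N, P.eval z * (starRingEnd ℂ) z ^ l = 0 := by
    intro l hl
    have h1 : ∀ z : ℂ, P.eval z * (starRingEnd ℂ) z ^ l = ∑ i ∈ Finset.range (j + 1),
        (((p.coeff (k + i * N)).re : ℝ) : ℂ) * (z ^ (k + i * N) * (starRingEnd ℂ) z ^ l) := by
      intro z
      rw [hPe, eval_finsetSum, Finset.sum_mul]
      refine Finset.sum_congr rfl fun i _ => ?_
      rw [eval_mul, eval_C, eval_pow, eval_X]
      ring
    simp_rw [h1]
    rw [integral_finsetSum]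
    · have h2 : ∀ i ∈ Finset.range (j + 1), ∫ z in PG N,
          (((p.coeff (k + i * N)).re : ℝ) : ℂ) * (z ^ (k + i * N) * (starRingEnd ℂ) z ^ l) =
          (((p.coeff (k + i * N)).re * MR N w (k + i * N) l : ℝ) : ℂ) := by
        intro i _
        rw [integral_const_mul, Complex.ofReal_mul, ← MO_eq h]
        rfl
      rw [Finset.sum_congr rfl h2, ← Complex.ofReal_sum, hrel2 l hl, Complex.ofReal_zero]
    · intro i _
      exact PG_int hN (by fun_prop)
  have hpP : p = P := by
    have hmap : (q.map (algebraMap ℝ ℂ)).Monic := hqm.map _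
    have hcompm : ((q.map (algebraMap ℝ ℂ)).comp (X ^ N)).Monic :=
      hmap.comp (monic_X_pow N) (by rw [natDegree_X_pow]; exact hN)
    have hPm : P.Monic := (monic_X_pow k).mul hcompm
    have hPd : P.natDegree = M := by
      rw [hP, natDegree_mul (pow_ne_zero _ X_ne_zero) hcompm.ne_zero, natDegree_X_pow,
        natDegree_comp, natDegree_X_pow, natDegree_map_eq_of_injective
          (algebraMap ℝ ℂ).injective, hqdeg, hM]
      ring
    by_contra hne
    have hD0 : p - P ≠ 0 := sub_ne_zero.2 hne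
    have hdeg : (p - P).natDegree < M := by
      have h1 : (p - P).degree < p.degree := degree_sub_lt_left
        (by rw [degree_eq_natDegree hp.ne_zero, degree_eq_natDegree hPm.ne_zero, hd, hPd])
        hp.ne_zero (by rw [hp.leadingCoeff, hPm.leadingCoeff])
      rw [← hd]
      exact natDegree_lt_natDegree hD0 h1
    apply hD0
    apply poly_zero h
    have h1 := ho (p - P) hdeg
    have h2 := orth_all hN P M hPo (p - P) hdeg
    have h3 : ∀ z : ℂ, (p - P).eval z * (starRingEnd ℂ) ((p - P).eval z) =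
        p.eval z * (starRingEnd ℂ) ((p - P).eval z) -
          P.eval z * (starRingEnd ℂ) ((p - P).eval z) := by
      intro z
      rw [eval_sub]
      ring
    simp_rw [h3]
    rw [integral_sub, h1, h2, sub_zero]
    · exact PG_int hN (p.continuous.mul (Complex.continuous_conj.comp (p - P).continuous))
    · exact PG_int hN (P.continuous.mul (Complex.continuous_conj.comp (p - P).continuous))
  refine ⟨q, hqm, hqdeg, hpP, ?_⟩
  intro i hi
  have hl : k + i * N < M := by
    have : (i + 1) * N ≤ j * N := Nat.mul_le_mul_right N (by omega)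
    have e : (i + 1) * N = i * N + N := by ring
    omega
  have h1 := hrel2 (k + i * N) hl
  have h2 : ∀ i' ∈ Finset.range (j + 1), (p.coeff (k + i' * N)).re * MR N w (k + i' * N) (k + i * N) =
      N / (((k + i * N : ℕ) : ℝ) + 1) * ∫ x in (0 : ℝ)..1, (p.coeff (k + i' * N)).re *
        (x ^ (k + i' * N) * ((1 + w * (1 - (x : ℂ))) ^ (k + i * N + 1)).im) := by
    intro i' _
    unfold MR
    rw [if_pos (by simp), intervalIntegral.integral_const_mul]
    ring
  have hc : Continuous fun x : ℝ => ((1 + w * (1 - (x : ℂ))) ^ (k + i * N + 1)).im := by fun_prop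
  rw [Finset.sum_congr rfl h2, ← Finset.mul_sum, ← intervalIntegral.integral_finsetSum] at h1
  · have h3 : (N : ℝ) / (((k + i * N : ℕ) : ℝ) + 1) ≠ 0 := by
      apply div_ne_zero
      · exact_mod_cast hN
      · exact_mod_cast Nat.succ_ne_zero (k + i * N)
    rcases mul_eq_zero.1 h1 with h4 | h4
    · exact absurd h4 h3
    · rw [← h4]
      congr 1
      ext x
      have e : k + 1 + i * N = k + i * N + 1 := by ring
      rw [e, hq, eval_finsetSum, Finset.mul_sum, Finset.sum_mul]
      refine Finset.sum_congr rfl fun i' _ => ?_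
      have e2 : x ^ (k + i' * N) = x ^ k * (x ^ N) ^ i' := by
        rw [pow_add, mul_comm i' N, pow_mul]
      rw [eval_mul, eval_C, eval_pow, eval_X, e2]
      ring
  · intro i' _
    apply Continuous.intervalIntegrable
    fun_prop

theorem exists_W {N : ℕ} (hN : N = 3 ∨ N = 4) : ∃ w, IsW N w := by
  rcases hN with rfl | rfl
  · exact ⟨⟨-1 / 2, √3 / 2⟩, Or.inl ⟨rfl, rfl, rfl⟩⟩
  · exact ⟨⟨0, 1⟩, Or.inr ⟨rfl, rfl, rfl⟩⟩

theorem main (N : ℕ) (hN : N = 3 ∨ N = 4) (k : ℕ) (hk : k < N) (j : ℕ) (p p' : ℂ[X])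
    (hp : p.Monic) (hd : p.natDegree = j * N + k)
    (ho : ∀ r : ℂ[X], r.natDegree < j * N + k →
      ∫ z in PG N, p.eval z * (starRingEnd ℂ) (r.eval z) = 0)
    (hp' : p'.Monic) (hd' : p'.natDegree = (j + 1) * N + k)
    (ho' : ∀ r : ℂ[X], r.natDegree < (j + 1) * N + k →
      ∫ z in PG N, p'.eval z * (starRingEnd ℂ) (r.eval z) = 0) :
    ∃ t s : ℕ → ℝ,
      p = X ^ k * (∏ ν ∈ Finset.range j, (X - C ((t ν : ℝ) : ℂ))).comp (X ^ N) ∧
      p' = X ^ k * (∏ ν ∈ Finset.range (j + 1), (X - C ((s ν : ℝ) : ℂ))).comp (X ^ N) ∧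
      0 < s 0 ∧ s j < 1 ∧ ∀ ν, ν < j → s ν < t ν ∧ t ν < s (ν + 1) := by
  obtain ⟨w, h⟩ := exists_W hN
  obtain ⟨q, hq1, hq2, hq3, hq4⟩ := reduce h hk p hp hd ho
  obtain ⟨Q, hQ1, hQ2, hQ3, hQ4⟩ := reduce h hk p' hp' hd' ho'
  obtain ⟨t, s, e1, e2, e3, e4, e5⟩ := poly_main h hk q Q hq1 hq2 hQ1 hQ2 hq4 hQ4
  have hmap : ∀ (n : ℕ) (u : ℕ → ℝ), (∏ ν ∈ Finset.range n, (X - C (u ν))).map (algebraMap ℝ ℂ) =
      ∏ ν ∈ Finset.range n, (X - C ((u ν : ℝ) : ℂ)) := by
    intro n u
    rw [Polynomial.map_prod]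
    refine Finset.prod_congr rfl fun ν _ => ?_
    rw [Polynomial.map_sub, Polynomial.map_X, Polynomial.map_C]
    rfl
  refine ⟨t, s, ?_, ?_, e3, e4, e5⟩
  · rw [hq3, e1, hmap]
  · rw [hQ3, e2, hmap]

end

end Run7.h887.BP
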